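import Pool.Agent.Lib_helper58.KT.Main

/-!
# Semicontinuity of the number of Tate classes in a tower of Kummer coverings: the proof
-/

set_option autoImplicit false

namespace Pool.Agent.KT

open NumberField Topology Polynomial
open Pool.Agent.TT Pool.Agent.TB Pool.Agent.TF Pool.Agent.RF Pool.Agent.TBL Pool.Agent.TU

section nbhd

variable {K : Type} [Field K] [NumberField K] [Algebra K Qbar] {p : ℕ} [hp : Fact p.Prime]

/-- The neighborhood of an element. -/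
theorem nbhd_mem {d : ℕ} (ρ : (Qbar ≃ₐ[K] Qbar) →* Matrix (Fin d) (Fin d) ℂ_[p])
    (hρ : Continuous ρ) (g : Qbar ≃ₐ[K] Qbar) (N : ℕ) (hg : ∀ z : Qbar, z ^ p ^ N = 1 → g z = z)
    (I : Finset ℕ) {ε : ℝ} (hε : 0 < ε) :
    {σ : Qbar ≃ₐ[K] Qbar | (∀ l ∈ I, ‖(ρ σ⁻¹ ^ l).trace - (ρ g ^ l).trace‖ < ε) ∧
      ∀ z : Qbar, z ^ p ^ N = 1 → σ z = z} ∈ 𝓝 g⁻¹ := by
  classical
  have h1 : {σ : Qbar ≃ₐ[K] Qbar | ∀ l ∈ I, ‖(ρ σ⁻¹ ^ l).trace - (ρ g ^ l).trace‖ < ε} ∈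
      𝓝 g⁻¹ := by
    have h2 : {σ : Qbar ≃ₐ[K] Qbar | ∀ l ∈ I, ‖(ρ σ⁻¹ ^ l).trace - (ρ g ^ l).trace‖ < ε} =
        ⋂ l ∈ I, {σ : Qbar ≃ₐ[K] Qbar | ‖(ρ σ⁻¹ ^ l).trace - (ρ g ^ l).trace‖ < ε} := by
      ext σ
      simp only [Set.mem_ofPred_eq, Set.mem_iInter]
    rw [h2, Filter.biInter_finset_mem]
    intro l _
    have h3 : Continuous fun σ : Qbar ≃ₐ[K] Qbar => ‖(ρ σ⁻¹ ^ l).trace - (ρ g ^ l).trace‖ :=
      ((((hρ.comp continuous_inv).pow l).matrix_trace).sub continuous_const).norm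
    apply (isOpen_lt h3 continuous_const).mem_nhds
    rw [Set.mem_ofPred_eq, inv_inv, sub_self, norm_zero]
    exact hε
  have h2 : {σ : Qbar ≃ₐ[K] Qbar | ∀ z : Qbar, z ^ p ^ N = 1 → σ z = z} ∈ 𝓝 g⁻¹ := by
    have hfd : FiniteDimensional K (level K p N) := by
      have := level_nf (K := K) hp.out N
      exact FiniteDimensional.right ℚ K (level K p N)
    have h3 : IsOpen ((level K p N).fixingSubgroup : Set (Qbar ≃ₐ[K] Qbar)) :=
      (level K p N).fixingSubgroup_isOpen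
    have h4 : (fun σ : Qbar ≃ₐ[K] Qbar => g * σ) ⁻¹'
        ((level K p N).fixingSubgroup : Set (Qbar ≃ₐ[K] Qbar)) ∈ 𝓝 g⁻¹ := by
      apply (h3.preimage (continuous_const_mul g)).mem_nhds
      rw [Set.mem_preimage, mul_inv_cancel]
      exact Subgroup.one_mem _
    apply Filter.mem_of_superset h4
    intro σ hσ z hz
    rw [Set.mem_preimage, SetLike.mem_coe, IntermediateField.mem_fixingSubgroup_iff] at hσ
    have h5 := hσ z (IntermediateField.subset_adjoin K _ hz)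
    apply g.injective
    rw [hg z hz]
    exact h5
  exact Filter.inter_mem h1 h2

end nbhd

open Classical in
/-- **Semicontinuity of the number of Tate classes in a tower of Kummer coverings.** -/
theorem main : Main := by
  intro K _ _ _ p m hp hm ζ hζ ι d ρ hρ g hg
  have hpp : p.Prime := hp.out
  -- the constants
  have hA : (ρ g).det ≠ 0 := by
    have h1 : ρ g * ρ g⁻¹ = 1 := by rw [← map_mul, mul_inv_cancel, map_one]
    have h2 := congrArg Matrix.det h1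
    rw [Matrix.det_mul, Matrix.det_one] at h2
    exact left_ne_zero_of_mul_eq_one h2
  have hL : 0 < p * m * (d + 1).factorial :=
    Nat.mul_pos (Nat.mul_pos hpp.pos hm) (Nat.factorial_pos _)
  obtain ⟨κ, e, hκ0, hκ1, hed, hee, hpsi⟩ := bottom_psi (ρ g) hA hL
  obtain ⟨c₀, ε, hc₀, hε, I, hnear⟩ := psi_near hκ0 d (d - e) _ hpsi
  obtain ⟨δ, hδ0, hδ1, hδ⟩ := zeta_close p m
  have hden : 0 < ‖((den d (d - e) : ℕ) : ℂ_[p])‖ := by
    rw [norm_pos_iff]
    exact_mod_cast (den_pos d (d - e)).ne'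
  obtain ⟨B₁, hB₁⟩ := exists_pow_lt_of_lt_one (mul_pos hden hc₀) hδ1
  refine ⟨B₁ + m, ?_⟩
  intro j s S hbot T hT
  obtain ⟨B₀, hB₀⟩ := hbot
  -- the levels
  set T' : Finset ℕ := T.filter fun n => m ≤ n with hT'
  have hcardT : T.card ≤ T'.card + m := by
    have h1 : T ⊆ T' ∪ Finset.range m := by
      intro n hn
      rw [Finset.mem_union, hT', Finset.mem_filter, Finset.mem_range]
      by_cases h : m ≤ n
      · exact Or.inl ⟨hn, h⟩
      · exact Or.inr (by omega)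
    calc T.card ≤ (T' ∪ Finset.range m).card := Finset.card_le_card h1
      _ ≤ T'.card + (Finset.range m).card := Finset.card_union_le _ _
      _ = T'.card + m := by rw [Finset.card_range]
  suffices hmain : T'.card ≤ B₁ by omega
  by_contra hcon
  push Not at hcon
  -- the data of the levels
  have hlev : ∀ n, ∃ Bn : Finset ℕ, n ∈ T → ∃ ω : 𝓞 (level K p n), IsPrimitiveRoot ω (p ^ n) ∧
      ∀ q : ℕ, q.Prime → q ∉ Bn → ∀ Q : Ideal (𝓞 Qbar), Q.IsPrime →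
        (q : 𝓞 Qbar) ∈ Q → ∀ σ : Qbar ≃ₐ[level K p n] Qbar,
          (∀ x y : 𝓞 Qbar, (y : Qbar) = σ x → y - x ^ q ∈ Q) →
        ∃ α : Fin d → Qbar, (∀ r, 1 ≤ r → ∀ (F : Type) [Field F] [Fintype F]
          (φ : 𝓞 (level K p n) →+* F), Fintype.card F = q ^ r →
            (∀ x : 𝓞 (level K p n), φ x = 0 ↔ algebraMap (𝓞 (level K p n)) (𝓞 Qbar) x ∈ Q) →
            ∑ i, α i ^ r = algebraMap (level K p n) Qbar
              ((towerSum m ζ (p ^ n) ω φ S : 𝓞 (level K p n)) : level K p n)) ∧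
          ∃ M : ℕ, 0 < M ∧ rootEig (ρ g) <
            (Finset.univ.filter fun i => α i ^ M = ((q : Qbar) ^ M) ^ j).card := by
    intro n
    by_cases hn : n ∈ T
    · obtain ⟨ω, hω, ℓ, hℓ, il, V, _, _, π, hfin, hV, hπ, hTate⟩ := hT n hn
      have hnf : NumberField (level K p n) := level_nf hpp n
      obtain ⟨Bn, hBn⟩ := tate_eig il hV π (fun F _ _ φ => towerSum m ζ (p ^ n) ω φ S) hπ hTate
      exact ⟨Bn, fun _ => ⟨ω, hω, hBn⟩⟩
    · exact ⟨∅, fun h => absurd h hn⟩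
  choose Bn hBn using hlev
  -- the number `N`
  obtain ⟨N₀, hN₀⟩ : ∃ N₀ : ℕ, ‖(p : ℂ_[p])‖ ^ N₀ < ε := exists_pow_lt_of_lt_one hε (norm_p_lt p)
  set N : ℕ := T.sup id + N₀ + 1 with hN
  have hNpos : 0 < N := by omega
  have hTN : ∀ n ∈ T, n ≤ N := by
    intro n hn
    have h1 : n ≤ T.sup id := Finset.le_sup (f := id) hn
    omega
  have hNε : ‖(p : ℂ_[p])‖ ^ N < ε := by
    refine lt_of_le_of_lt ?_ hN₀
    exact pow_le_pow_of_le_one (norm_nonneg _) (norm_p_lt p).le (by omega)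
  -- the Frobenius element
  obtain ⟨q, hq, hqB, Q, hQ, hqQ, σ, ⟨hσ1, hσ2⟩, hσ⟩ :=
    fb_dense g⁻¹ _ (nbhd_mem ρ hρ g N (hg N) I hε) (B₀ ∪ (T.biUnion Bn ∪ Finset.range (p ^ N + 1)))
  rw [Finset.mem_union, Finset.mem_union, Finset.mem_biUnion, Finset.mem_range, not_or,
    not_or] at hqB
  obtain ⟨hqB0, hqB1, hqB2⟩ := hqB
  have hqN : p ^ N < q := by omega
  have hqF : Fact q.Prime := ⟨hq⟩
  obtain ⟨w, Θ, hw, hqN1, hΘ1, hΘ2, hΘ3, hΘ4⟩ :=
    frob_package hpp (m := m) (ζ := ζ) hq hqN hQ hqQ hσ hσ2 S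
  set Θ' : ℕ → Qbar[X] := fun r => (Θ r).map (emb K) with hΘ'
  set c : ℚ := ((q : ℚ) ^ j)⁻¹ with hc
  set h : Qbar[X] := hpoly d κ (d - e) (c : Qbar) Θ' with hh
  have hzm : emb K ζ ^ m = 1 := by rw [← map_pow, hζ.pow_eq_one, map_one]
  have hq0 : (q : Qbar) ≠ 0 := by exact_mod_cast hq.ne_zero
  -- the zeros
  have hzero : ∀ n ∈ T, h.eval (w n) = 0 := by
    intro n hn
    obtain ⟨ω, hω, hα⟩ := hBn n hn
    obtain ⟨σn, hσn, hΘn⟩ := hΘ4 n (hTN n hn)
    obtain ⟨α, hα1, M, hM, hα2⟩ := hα q hq (fun hmem => hqB1 ⟨n, hn, hmem⟩) Q hQ hqQ σn (by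
      intro x y hxy
      rw [hσn] at hxy
      exact hσ x y hxy)
    refine level_zero hpp hm hzm (hw n (hTN n hn)) (Θ := Θ') hΘ1
      (fun R h1 h2 r => hΘ2 R h1 _ h2 r) hed hκ1 c α ?_ hM ?_
    · intro r hr
      obtain ⟨F, _, _, φ, hcard, hφ, hval⟩ := hΘn ω hω r hr
      rw [hα1 r hr F φ hcard hφ]
      exact hval.symm
    · refine lt_of_le_of_lt hee (lt_of_lt_of_le hα2 ?_)
      apply Finset.card_le_card
      intro i hi
      rw [Finset.mem_filter] at hi ⊢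
      refine ⟨hi.1, ?_⟩
      rw [mul_pow, hi.2, hc, Rat.cast_inv, Rat.cast_pow, Rat.cast_natCast, inv_pow, ← pow_mul,
        ← pow_mul, mul_comm j M]
      exact inv_mul_cancel₀ (pow_ne_zero _ hq0)
  -- divisibility
  have hk : ¬ p ^ (m + 1) ∣ m := by
    intro hdvd
    have h1 := Nat.le_of_dvd hm hdvd
    have h2 : m + 1 < p ^ (m + 1) := Nat.lt_pow_self hpp.one_lt
    omega
  have hT'T : ∀ n ∈ T', n ∈ T ∧ m ≤ n := by
    intro n hn
    rw [hT', Finset.mem_filter] at hn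
    exact hn
  have hdvd := levels_dvd hpp hm hk hm hzm h (by
      intro τ hτ
      rw [hh, hpoly_map]
      congr 1
      · exact map_ratCast (τ : Qbar →+* Qbar) c
      · funext r
        exact hΘ1 τ hτ r) T' (fun n hn => (hT'T n hn).2) w
    (fun n hn => hw n (hTN n (hT'T n hn).1)) (fun n hn => hzero n (hT'T n hn).1)
  -- the embedding into the `p`-adic numbers
  have hac : Algebra.IsAlgebraic K Qbar := by
    have : Algebra.IsAlgebraic ℚ Qbar := AlgebraicClosure.isAlgebraic ℚ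
    exact Algebra.IsAlgebraic.tower_top (K := ℚ) K
  let _ : Algebra K ℂ_[p] := ι.toAlgebra
  let θ : Qbar →ₐ[K] ℂ_[p] := IsAlgClosed.lift
  let θ' : Qbar →+* ℂ_[p] := θ
  have hθ : ∀ x : 𝓞 K, θ' (emb K x) = ι (x : K) := fun x => θ.commutes (x : K)
  have hdvd2 : ∏ n ∈ T', (X ^ p ^ (n - m) - C (θ' (w n ^ p ^ (n - m)))) ∣
      hpoly d κ (d - e) (θ' (c : Qbar)) (fun r => (Θ' r).map θ') := by
    have h1 := Polynomial.map_dvd θ' hdvd
    rw [Polynomial.map_prod, hh, hpoly_map] at h1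
    simp only [Polynomial.map_sub, Polynomial.map_pow, Polynomial.map_X, Polynomial.map_C] at h1
    exact h1
  obtain ⟨-, hqn⟩ := q_norm (p := p) hNpos hqN1 hq.one_le
  have hθc : θ' (c : Qbar) = ((q : ℂ_[p]) ^ j)⁻¹ := by
    rw [map_ratCast, hc, Rat.cast_inv, Rat.cast_pow, Rat.cast_natCast]
  have hcn : ‖θ' (c : Qbar)‖ ≤ 1 := by
    rw [hθc, norm_inv, norm_pow, hqn, one_pow, inv_one]
  have hwn : ∀ n ∈ T', (θ' (w n ^ p ^ (n - m))) ^ p ^ m = 1 := by
    intro n hn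
    obtain ⟨h1, h2⟩ := hT'T n hn
    rw [← map_pow, ← pow_mul, ← pow_add, Nat.sub_add_cancel h2, (hw n (hTN n h1)).pow_eq_one,
      map_one]
  have hbound := padic_bound d κ (d - e) (θ' (c : Qbar)) hcn (fun r => (Θ' r).map θ') (by
      intro r
      have h1 : ∀ x : 𝓞 K, (θ'.comp (emb K)) x ∈ (nv ℂ_[p]).toSubring := by
        intro x
        rw [RingHom.comp_apply, hθ]
        exact rs_ring ι x
      refine ⟨(Θ r).map ((θ'.comp (emb K)).codRestrict (nv ℂ_[p]).toSubring h1), ?_⟩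
      rw [Polynomial.coe_mapRingHom, Polynomial.map_map, hΘ', Polynomial.map_map]
      congr 1) T' (fun n => p ^ (n - m)) (fun n _ => pow_pos hpp.pos _)
    (fun n => θ' (w n ^ p ^ (n - m)))
    (fun n hn => (tu_norm_one (pow_pos hpp.pos m) (hwn n hn)).le)
    (δ := δ) (fun n hn => hδ _ (hwn n hn)) hdvd2
  -- the value at the bottom
  have hval : c₀ ≤ ‖(hpoly d κ (d - e) (θ' (c : Qbar)) (fun r => (Θ' r).map θ')).eval 1‖ := by
    rw [hpoly_eval, one_pow]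
    apply hnear
    intro l hl
    rw [stw_eval]
    by_cases hl0 : l = 0
    · subst hl0
      rw [if_pos rfl, pow_zero, Matrix.trace_one, Fintype.card_fin, sub_self, norm_zero]
      exact hε
    · rw [if_neg hl0, hθc]
      obtain ⟨F, _, _, φ, hcard, hφ, hval⟩ := hΘ3 l (by omega)
      have h1 : ((Θ' l).map θ').eval 1 = ι ((towerSum m ζ 1 1 φ S : 𝓞 K) : K) := by
        rw [← hval, hΘ', Polynomial.map_map, ← hθ, Polynomial.eval_map,
          ← map_one (θ'.comp (emb K)), Polynomial.eval₂_at_apply]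
        rfl
      rw [h1]
      have hfr : ∀ x y : 𝓞 Qbar, (y : Qbar) = (σ ^ l) x → y - x ^ Fintype.card F ∈ Q := by
        rw [hcard]
        exact pl_frob_pow hσ l
      have h2 := hB₀ q hq hqB0 Q hQ hqQ F φ hφ (σ ^ l) hfr
      beta_reduce at h2
      rw [hcard, ← inv_pow, map_pow] at h2
      exact close hNpos hqN1 hq.one_le hNε j l (rs_ring ι _) h2 (hσ1 l hl)
  -- the contradiction
  have h1 : ‖((den d (d - e) : ℕ) : ℂ_[p])‖ * c₀ ≤ δ ^ T'.card :=
    (mul_le_mul_of_nonneg_left hval hden.le).trans hbound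
  have h2 : δ ^ T'.card ≤ δ ^ B₁ := pow_le_pow_of_le_one hδ0.le hδ1.le hcon.le
  linarith

end Pool.Agent.KT
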