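import Pool.Agent.Lib_helper61.TT.Defs

/-!
# Automorphisms and orders of roots of unity
-/

set_option autoImplicit false

namespace Pool.Agent.KT

open Polynomial IntermediateField
open Pool.Agent.TT (Qbar)

theorem exists_prim {N : ℕ} (hN : 0 < N) : ∃ z : Qbar, IsPrimitiveRoot z N := by
  have : NeZero (N : Qbar) := ⟨by exact_mod_cast hN.ne'⟩
  obtain ⟨z, hz⟩ := IsAlgClosed.exists_aeval_eq_zero_of_injective Qbar
    (algebraMap ℚ Qbar).injective (cyclotomic N ℚ) (by
      rw [Polynomial.degree_cyclotomic]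
      exact_mod_cast (Nat.totient_pos.mpr hN).ne')
  refine ⟨z, ?_⟩
  rw [← Polynomial.isRoot_cyclotomic_iff, Polynomial.IsRoot.def, ← Polynomial.map_cyclotomic N
    (algebraMap ℚ Qbar), Polynomial.eval_map]
  exact hz

/-- There is an automorphism that raises all roots of unity of order `N` to the power `κ`. -/
theorem kt_aut {N κ : ℕ} (hN : 0 < N) (h : Nat.Coprime κ N) :
    ∃ τ : Qbar ≃ₐ[ℚ] Qbar, ∀ z : Qbar, z ^ N = 1 → τ z = z ^ κ := by
  obtain ⟨z, hz⟩ := exists_prim hN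
  have : NeZero N := ⟨hN.ne'⟩
  have hnorm : Normal ℚ Qbar := by
    have : IsAlgClosure ℚ Qbar := ⟨inferInstance, AlgebraicClosure.isAlgebraic ℚ⟩
    exact IsAlgClosure.normal ℚ Qbar
  have hconj : IsConjRoot ℚ (z ^ κ) z := by
    rw [isConjRoot_def, ← Polynomial.cyclotomic_eq_minpoly_rat (hz.pow_of_coprime κ h) hN,
      ← Polynomial.cyclotomic_eq_minpoly_rat hz hN]
  rw [isConjRoot_iff_exists_algEquiv] at hconj
  obtain ⟨τ, hτ⟩ := hconj
  refine ⟨τ, ?_⟩
  intro y hy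
  obtain ⟨i, -, rfl⟩ := hz.eq_pow_of_pow_eq_one hy
  rw [map_pow, hτ, ← pow_mul, ← pow_mul, mul_comm]

/-- The primes that divide the order of a root of unity of small degree over the field of a root of
unity. -/
theorem kt_order {Ω : Type} [Field Ω] [CharZero Ω] {m₀ : ℕ} (hm : 0 < m₀) {z : Ω}
    (hz : IsPrimitiveRoot z m₀) (L : IntermediateField ℚ Ω)
    (hL : L = IntermediateField.adjoin ℚ {z}) {f : L[X]} {d : ℕ}
    (hf0 : f ≠ 0) (hfd : f.natDegree ≤ d) {x : Ω}
    (hx : f.eval₂ (algebraMap L Ω) x = 0) {M : ℕ} (hM : 0 < M) (hxM : x ^ M = 1) {r : ℕ}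
    (hr : r.Prime) (hrx : r ∣ orderOf x) (hrm : ¬ r ∣ m₀) : r ≤ d + 1 := by
  have hx' : IsOfFinOrder x := isOfFinOrder_iff_pow_eq_one.mpr ⟨M, hM, hxM⟩
  have hord : orderOf x ≠ 0 := hx'.orderOf_pos.ne'
  obtain ⟨b, hb⟩ := hrx
  have hprim : IsPrimitiveRoot x (orderOf x) := IsPrimitiveRoot.orderOf x
  have hy : IsPrimitiveRoot (x ^ b) r := hprim.pow (Nat.pos_of_ne_zero hord) (by rw [hb, mul_comm])
  set y : Ω := x ^ b with hydef
  have hcop0 : Nat.Coprime m₀ r := ((Nat.Prime.coprime_iff_not_dvd hr).mpr hrm).symm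
  have hcop : Nat.Coprime (orderOf z) (orderOf y) := by
    rw [← hz.eq_orderOf, ← hy.eq_orderOf]
    exact hcop0
  have hw : IsPrimitiveRoot (z * y) (m₀ * r) := by
    have h1 := (Commute.all z y).orderOf_mul_eq_mul_orderOf_of_coprime hcop
    rw [← hz.eq_orderOf, ← hy.eq_orderOf] at h1
    rw [← h1]
    exact IsPrimitiveRoot.orderOf _
  have hfr : ∀ {w : Ω} {m : ℕ}, 0 < m → IsPrimitiveRoot w m →
      Module.finrank ℚ (IntermediateField.adjoin ℚ {w}) = m.totient := by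
    intro w m hm hw
    rw [IntermediateField.adjoin.finrank (hw.isIntegral hm).tower_top,
      ← Polynomial.cyclotomic_eq_minpoly_rat hw hm, Polynomial.natDegree_cyclotomic]
  have hxL : IsIntegral L x := by
    apply IsAlgebraic.isIntegral
    exact ⟨f, hf0, hx⟩
  set L' : IntermediateField L Ω := IntermediateField.adjoin L {x} with hL'
  have h1 : Module.finrank L L' ≤ d := by
    rw [hL', IntermediateField.adjoin.finrank hxL]
    refine le_trans ?_ hfd
    apply Polynomial.natDegree_le_of_dvd _ hf0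
    exact minpoly.dvd L x hx
  have hfinL : FiniteDimensional ℚ L := by
    rw [hL]
    exact IntermediateField.adjoin.finiteDimensional (hz.isIntegral hm).tower_top
  have hfinL' : FiniteDimensional L L' := IntermediateField.adjoin.finiteDimensional hxL
  have hfin : FiniteDimensional ℚ L' := FiniteDimensional.trans ℚ L L'
  have h2 : Module.finrank ℚ L * Module.finrank L L' = Module.finrank ℚ L' :=
    Module.finrank_mul_finrank ℚ L L'
  have hzL : z ∈ L := by
    rw [hL]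
    exact IntermediateField.mem_adjoin_simple_self ℚ z
  have hfrL : Module.finrank ℚ L = m₀.totient := by
    rw [hL]
    exact hfr hm hz
  have hzL' : z ∈ L' := by
    have := L'.algebraMap_mem ⟨z, hzL⟩
    exact this
  have hxL' : x ∈ L' := IntermediateField.mem_adjoin_simple_self L x
  have hyL' : y ∈ L' := pow_mem hxL' _
  have hle : IntermediateField.adjoin ℚ {z * y} ≤ L'.restrictScalars ℚ := by
    rw [IntermediateField.adjoin_simple_le_iff]
    exact mul_mem hzL' hyL'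
  have h3 : Module.finrank ℚ (IntermediateField.adjoin ℚ {z * y}) ≤ Module.finrank ℚ L' := by
    have : FiniteDimensional ℚ (L'.restrictScalars ℚ) := hfin
    exact Submodule.finrank_mono (R := ℚ)
      (s := (IntermediateField.adjoin ℚ {z * y}).toSubalgebra.toSubmodule)
      (t := (L'.restrictScalars ℚ).toSubalgebra.toSubmodule) hle
  rw [hfr (Nat.mul_pos hm hr.pos) hw, ← h2, hfrL, Nat.totient_mul hcop0,
    Nat.totient_prime hr] at h3
  have h4 : r - 1 ≤ Module.finrank L L' :=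
    Nat.le_of_mul_le_mul_left h3 (Nat.totient_pos.mpr hm)
  omega

/-- The roots of unity of order `p ^ n` with the same power of exponent `p ^ (n - k)` are
conjugate over the field of the `m`-th roots of unity, if `k` is large. -/
theorem kt_conj {p m n k : ℕ} (hp : p.Prime) (hm : 0 < m) (hk : ¬ p ^ (k + 1) ∣ m) (hk1 : 1 ≤ k)
    (hkn : k ≤ n) {w ξ zm : Qbar} (hw : IsPrimitiveRoot w (p ^ n))
    (hξ : ξ ^ p ^ (n - k) = w ^ p ^ (n - k)) (hzm : zm ^ m = 1) :
    ∃ τ : Qbar ≃ₐ[ℚ] Qbar, τ zm = zm ∧ τ w = ξ := by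
  have hpn : 0 < p ^ n := pow_pos hp.pos n
  have : NeZero (p ^ n) := ⟨hpn.ne'⟩
  have hsplit : p ^ n = p ^ (n - k) * p ^ k := by
    rw [← pow_add]
    congr 1
    omega
  have hξn : ξ ^ p ^ n = 1 := by
    rw [hsplit, pow_mul, hξ, ← pow_mul, ← hsplit, hw.pow_eq_one]
  obtain ⟨u, -, hu⟩ := hw.eq_pow_of_pow_eq_one hξn
  have hord : orderOf w = p ^ n := hw.eq_orderOf.symm
  have hfin : IsOfFinOrder w := isOfFinOrder_iff_pow_eq_one.mpr ⟨p ^ n, hpn, hw.pow_eq_one⟩
  have hu1 : u ≡ 1 [MOD p ^ k] := by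
    rw [← hu, ← pow_mul, hfin.pow_eq_pow_iff_modEq, hord, hsplit] at hξ
    have h1 : p ^ (n - k) * u ≡ p ^ (n - k) * 1 [MOD p ^ (n - k) * p ^ k] := by
      rw [mul_one, mul_comm (p ^ (n - k)) u]
      exact hξ
    exact Nat.ModEq.mul_left_cancel' (pow_pos hp.pos _).ne' h1
  obtain ⟨v, m', hpm', hvm⟩ := Nat.exists_eq_pow_mul_and_not_dvd hm.ne' p hp.ne_one
  have hvk : v ≤ k := by
    by_contra hcon
    push Not at hcon
    apply hk
    rw [hvm]
    exact Dvd.dvd.mul_right (pow_dvd_pow p hcon) m'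
  have hcop : Nat.Coprime (p ^ n) m' :=
    Nat.Coprime.pow_left n ((Nat.Prime.coprime_iff_not_dvd hp).mpr hpm')
  obtain ⟨κ, hκ1, hκ2⟩ := Nat.chineseRemainder hcop u 1
  have hκp : κ ≡ 1 [MOD p ^ k] := (hκ1.of_dvd (pow_dvd_pow p hkn)).trans hu1
  have hκpp : Nat.Coprime κ p := by
    have h1 : κ ≡ 1 [MOD p] := hκp.of_dvd (dvd_pow_self p (by omega))
    have h2 := h1.gcd_eq
    rw [Nat.gcd_one_left] at h2
    exact h2
  have hκm' : Nat.Coprime κ m' := by
    have h2 := hκ2.gcd_eq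
    rw [Nat.gcd_one_left] at h2
    exact h2
  have hκm : κ ≡ 1 [MOD m] := by
    rw [hvm]
    apply (Nat.modEq_and_modEq_iff_modEq_mul (Nat.Coprime.pow_left v
      ((Nat.Prime.coprime_iff_not_dvd hp).mpr hpm'))).mp
    exact ⟨hκp.of_dvd (pow_dvd_pow p hvk), hκ2⟩
  have hκN : Nat.Coprime κ (p ^ n * m) := by
    rw [hvm]
    exact Nat.Coprime.mul_right (hκpp.pow_right n)
      (Nat.Coprime.mul_right (hκpp.pow_right v) hκm')
  obtain ⟨τ, hτ⟩ := kt_aut (Nat.mul_pos hpn hm) hκN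
  refine ⟨τ, ?_, ?_⟩
  · rw [hτ zm (by rw [mul_comm, pow_mul, hzm, one_pow])]
    have hfin' : IsOfFinOrder zm := isOfFinOrder_iff_pow_eq_one.mpr ⟨m, hm, hzm⟩
    have h1 : zm ^ κ = zm ^ 1 := by
      rw [hfin'.pow_eq_pow_iff_modEq]
      exact hκm.of_dvd (orderOf_dvd_of_pow_eq_one hzm)
    rw [h1, pow_one]
  · rw [hτ w (by rw [pow_mul, hw.pow_eq_one, one_pow]), ← hu, hfin.pow_eq_pow_iff_modEq, hord]
    exact hκ1

end Pool.Agent.KT
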