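import Pool.Agent.Lib_helper61.TB.DefsE
import Pool.Agent.Lib_helper61.TU.Statement

/-!
# Towers of Kummer coverings: definitions
-/

set_option autoImplicit false

namespace Pool.Agent.KT

open NumberField Pool.Agent.TT Pool.Agent.TF Pool.Agent.TU

/-- A stratum: the affine space with `M` coordinates, polynomials `H`, `G` and `D` over the
integers of `K` and an integral coefficient `c`. -/
structure TowerStratum (K : Type) [Field K] where
  M : ℕ
  H : MvPolynomial (Fin M) (𝓞 K)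
  G : MvPolynomial (Fin M) (𝓞 K)
  D : MvPolynomial (Fin M) (𝓞 K)
  c : ℤ

/-- The value of the rational function `G / D` at a point over `F` (`0` if `D` vanishes). -/
noncomputable def TowerStratum.val {K : Type} [Field K] (S : TowerStratum K) {F : Type} [Field F]
    (φ : 𝓞 K →+* F) (x : Fin S.M → F) : F :=
  S.G.eval₂ φ x / S.D.eval₂ φ x

/-- The sum over all strata of the coefficient `c` times the sum of the products of the `m`-th power
residue symbol of `H(x)` and the `n`-th power residue symbol of `G(x) / D(x)`, where `x` runs over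
all points of the stratum over `F`; `L` is an extension of `K`, `ζ` is an `m`-th root of unity of
`K`, `ω` is an `n`-th root of unity of `L`. -/
noncomputable def towerSum {K L : Type} [Field K] [Field L] [Algebra K L] {F : Type} [Field F]
    [Fintype F] (m : ℕ) (ζ : 𝓞 K) (n : ℕ) (ω : 𝓞 L) (φ : 𝓞 L →+* F) {s : ℕ}
    (S : Fin s → TowerStratum K) : 𝓞 L :=
  ∑ i, ((S i).c : 𝓞 L) * ∑ x : Fin (S i).M → F,
    residueSymbol m (algebraMap (𝓞 K) (𝓞 L) ζ) φ
      ((S i).H.eval₂ (φ.comp (algebraMap (𝓞 K) (𝓞 L))) x) *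
    residueSymbol n ω φ ((S i).val (φ.comp (algebraMap (𝓞 K) (𝓞 L))) x)

/-- The level `n`: the field of all roots of unity of order `p ^ n` over `K`. -/
noncomputable abbrev level (K : Type) [Field K] [Algebra K Qbar] (p n : ℕ) :
    IntermediateField K Qbar :=
  IntermediateField.adjoin K {z : Qbar | z ^ p ^ n = 1}

/-- The property `P σ F φ` holds for all prime ideals `𝔓` of the ring of algebraic integers above
almost all primes `q`, all finite fields `F` that contain the residue field of `K` at `𝔓` (by `φ`)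
and all elements `σ` of the Galois group that induce `x ↦ x ^ |F|` modulo `𝔓`. -/
def AtFrobenius {K : Type} [Field K] [Algebra K Qbar]
    (P : (Qbar ≃ₐ[K] Qbar) → ∀ (F : Type) [Field F] [Fintype F], (𝓞 K →+* F) → Prop) : Prop :=
  ∃ B : Finset ℕ, ∀ q : ℕ, q.Prime → q ∉ B → ∀ 𝔓 : Ideal (𝓞 Qbar), 𝔓.IsPrime →
    (q : 𝓞 Qbar) ∈ 𝔓 → ∀ (F : Type) [Field F] [Fintype F] (φ : 𝓞 K →+* F),
      (∀ x : 𝓞 K, φ x = 0 ↔ algebraMap (𝓞 K) (𝓞 Qbar) x ∈ 𝔓) →
      ∀ σ : Qbar ≃ₐ[K] Qbar, (∀ x y : 𝓞 Qbar, (y : Qbar) = σ x → y - x ^ Fintype.card F ∈ 𝔓) →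
        P σ F φ

/-- The traces of `ρ` at the Frobenius elements are the sums at the bottom of the tower (`n = 1`,
`ω = 1`) modulo `|F| - 1`. -/
def BottomTraces {K : Type} [Field K] [Algebra K Qbar] {p : ℕ} [Fact p.Prime] {d : ℕ}
    (ρ : (Qbar ≃ₐ[K] Qbar) →* Matrix (Fin d) (Fin d) ℂ_[p]) (ι : K →+* ℂ_[p]) (m : ℕ) (ζ : 𝓞 K)
    {s : ℕ} (S : Fin s → TowerStratum K) : Prop :=
  AtFrobenius fun σ F _ _ φ =>
    ‖(ρ σ⁻¹).trace - ι (towerSum m ζ 1 1 φ S : 𝓞 K)‖ ≤ ‖(Fintype.card F : ℂ_[p]) - 1‖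

/-- The number of eigenvalues of a matrix (with multiplicity) that are roots of unity. -/
noncomputable def rootEig {k : Type} [Field k] {d : ℕ} (N : Matrix (Fin d) (Fin d) k) : ℕ := by
  classical
  exact (N.charpoly.roots.filter fun x => ∃ n : ℕ, 0 < n ∧ x ^ n = 1).card

/-- There are a prime `ℓ` and a representation `V` of dimension `d` of the Galois group of `L` over
the algebraic closure of `ℚ_ℓ` with the traces `T(F)`, the sums of the family `S` for the
`n`-th root of unity `ω`, such that some open subgroup acts trivially on a subquotient of dimension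
larger than `e` of the twist `V(j)`. -/
def HasManyClasses {K L : Type} [Field K] [Field L] [Algebra K L] [Algebra L Qbar] (m : ℕ)
    (ζ : 𝓞 K) (n : ℕ) (ω : 𝓞 L) {s : ℕ} (S : Fin s → TowerStratum K) (d j e : ℕ) : Prop :=
  ∃ (ℓ : ℕ) (_ : Fact ℓ.Prime) (ι : L →+* PadicAlgCl ℓ) (V : Type) (_ : AddCommGroup V)
    (_ : Module (PadicAlgCl ℓ) V) (π : Representation (PadicAlgCl ℓ) (Qbar ≃ₐ[L] Qbar) V),
    Module.Finite (PadicAlgCl ℓ) V ∧ Module.finrank (PadicAlgCl ℓ) V = d ∧
      FrobeniusValues (fun σ => LinearMap.trace (PadicAlgCl ℓ) V (π σ))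
        (fun _ _ _ φ => ι (towerSum m ζ n ω φ S : 𝓞 L)) ∧ ¬ TateClassesLE π j e

/-- The level `n` has many Tate classes: the numbers `T_n(F)` are the traces of a representation
over the algebraic closure of some `ℚ_ℓ` of dimension `d` with more than `e` Tate classes. -/
def ManyTateClasses {K : Type} [Field K] [Algebra K Qbar] (p m : ℕ) (ζ : 𝓞 K) {s : ℕ}
    (S : Fin s → TowerStratum K) (d j e n : ℕ) : Prop :=
  ∃ ω : 𝓞 (level K p n), IsPrimitiveRoot ω (p ^ n) ∧ HasManyClasses m ζ (p ^ n) ω S d j e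

/-- **Semicontinuity of the number of Tate classes in a tower of Kummer coverings.** -/
def Main : Prop :=
  ∀ {K : Type} [Field K] [NumberField K] [Algebra K Qbar] {p m : ℕ} [Fact p.Prime] (_ : 0 < m)
    {ζ : 𝓞 K} (_ : IsPrimitiveRoot ζ m) (ι : K →+* ℂ_[p]) {d : ℕ}
    (ρ : (Qbar ≃ₐ[K] Qbar) →* Matrix (Fin d) (Fin d) ℂ_[p]) (_ : Continuous ρ)
    (g : Qbar ≃ₐ[K] Qbar) (_ : ∀ (n : ℕ) (z : Qbar), z ^ p ^ n = 1 → g z = z),
    ∃ B : ℕ, ∀ (j : ℕ) {s : ℕ} (S : Fin s → TowerStratum K), BottomTraces ρ ι m ζ S →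
      ∀ T : Finset ℕ, (∀ n ∈ T, ManyTateClasses p m ζ S d j (rootEig (ρ g)) n) → T.card ≤ B

end Pool.Agent.KT
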