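import Pool.Agent.Lib_helper58.KT.Padic
import Pool.Agent.Lib_helper58.KT.Frob
import Pool.Agent.Lib_helper58.KT.Tate

/-!
# Semicontinuity of the number of Tate classes in a tower of Kummer coverings
-/

set_option autoImplicit false

namespace Pool.Agent.KT

open NumberField Topology Polynomial
open Pool.Agent.TT Pool.Agent.TB Pool.Agent.TF Pool.Agent.RF Pool.Agent.TBL Pool.Agent.TU

/-- The exponent `κ`. -/
theorem exists_kappa {C : Type} [Field C] {d : ℕ} (β : Fin d → C) (hβ : ∀ i, β i ≠ 0) {L : ℕ}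
    (hL : 0 < L) : ∃ κ : ℕ, 0 < κ ∧ κ ≡ 1 [MOD L] ∧
      ∀ i i', (¬ ∃ n : ℕ, 0 < n ∧ β i ^ n = 1) → β i ^ κ ≠ β i' := by
  classical
  have hfin : (⋃ x : Fin d × Fin d,
      {κ : ℕ | (¬ ∃ n : ℕ, 0 < n ∧ β x.1 ^ n = 1) ∧ β x.1 ^ κ = β x.2}).Finite := by
    apply Set.finite_iUnion
    rintro ⟨i, i'⟩
    apply Set.Subsingleton.finite
    rintro a ⟨h1, h2⟩ b ⟨-, h3⟩
    simp only at h1 h2 h3
    by_contra hne
    have key : ∀ a b : ℕ, a < b → β i ^ a = β i ^ b → False := by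
      intro a b hab h
      apply h1
      refine ⟨b - a, by omega, ?_⟩
      have h4 : β i ^ a * β i ^ (b - a) = β i ^ a * 1 := by
        rw [← pow_add, mul_one, Nat.add_sub_cancel' hab.le, h]
      exact mul_left_cancel₀ (pow_ne_zero _ (hβ i)) h4
    rcases lt_or_gt_of_ne hne with h4 | h4
    · exact key a b h4 (h2.trans h3.symm)
    · exact key b a h4 (h3.trans h2.symm)
  have hinf : (Set.range fun t : ℕ => 1 + L * t).Infinite := by
    apply Set.infinite_range_of_injective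
    intro a b hab
    simp only at hab
    have h1 : L * a = L * b := by omega
    exact Nat.eq_of_mul_eq_mul_left hL h1
  obtain ⟨κ, ⟨t, rfl⟩, hκ⟩ := hinf.exists_notMem_finite hfin
  refine ⟨1 + L * t, by omega, ?_, ?_⟩
  · have h1 : L * t ≡ 0 [MOD L] := (Nat.modEq_zero_iff_dvd).mpr (dvd_mul_right L t)
    have h2 := (Nat.ModEq.refl (n := L) 1).add h1
    rwa [add_zero] at h2
  · intro i i' h1 h2
    apply hκ
    rw [Set.mem_iUnion]
    exact ⟨(i, i'), h1, h2⟩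

/-- Roots of the characteristic polynomial of a matrix as a family. -/
theorem eig_family {C : Type} [Field C] [IsAlgClosed C] {d : ℕ} (A : Matrix (Fin d) (Fin d) C) :
    ∃ β : Fin d → C, Finset.univ.val.map β = A.charpoly.roots := by
  obtain ⟨d₁, y, hy⟩ := np_family A.charpoly.roots
  have hd₁ : d₁ = d := by
    have h1 := congrArg Multiset.card hy
    rw [Multiset.card_map, Finset.card_val, Finset.card_univ, Fintype.card_fin,
      ← (IsAlgClosed.splits A.charpoly).natDegree_eq_card_roots,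
      Matrix.charpoly_natDegree_eq_dim, Fintype.card_fin] at h1
    exact h1
  subst hd₁
  exact ⟨y, hy⟩

/-- The bottom of the tower: the exponent and the value of `psi`. -/
theorem bottom_psi {C : Type} [Field C] [CharZero C] [IsAlgClosed C] {d : ℕ}
    (A : Matrix (Fin d) (Fin d) C) (hA : A.det ≠ 0) {L : ℕ} (hL : 0 < L) :
    ∃ κ e : ℕ, 0 < κ ∧ κ ≡ 1 [MOD L] ∧ e ≤ d ∧ e ≤ rootEig A ∧
      psi d κ (d - e) (fun r => (A ^ r).trace) (fun r => (A ^ r).trace) ≠ 0 := by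
  classical
  obtain ⟨β, hβ⟩ := eig_family A
  have hβ0 : ∀ i, β i ≠ 0 := by
    intro i h0
    apply hA
    rw [Matrix.det_eq_prod_roots_charpoly, ← hβ]
    apply Multiset.prod_eq_zero
    rw [Multiset.mem_map]
    exact ⟨i, Finset.mem_univ i, h0⟩
  obtain ⟨κ, hκ0, hκ1, hκ2⟩ := exists_kappa β hβ0 hL
  set v : Multiset C := Finset.univ.val.map fun i => ∏ i', (β i ^ κ - β i') with hv
  have hvc : v.card = d := by
    rw [hv, Multiset.card_map, Finset.card_val, Finset.card_univ, Fintype.card_fin]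
  refine ⟨κ, v.count 0, hκ0, hκ1, ?_, ?_, ?_⟩
  · rw [← hvc]
    exact Multiset.count_le_card 0 v
  · rw [hv, Multiset.count_map]
    unfold rootEig
    rw [← hβ, Multiset.filter_map, Multiset.card_map]
    apply Multiset.card_le_card
    apply Multiset.monotone_filter_right
    intro i hi
    by_contra hcon
    have h1 := hi.symm
    rw [Finset.prod_eq_zero_iff] at h1
    obtain ⟨i', -, h2⟩ := h1
    exact hκ2 i i' hcon (sub_eq_zero.mp h2)
  · have hs : ∀ r, (A ^ r).trace = ∑ i, β i ^ r := by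
      intro r
      rw [tu_mtrace, ← hβ, Multiset.map_map]
      rfl
    rw [psi_family β β _ _ hs (fun r _ => hs r)]
    have h1 := (esymm_zeros v (e := v.count 0) (Multiset.count_le_card 0 v)).2 rfl
    rw [hvc] at h1
    exact h1

section norms

variable {p : ℕ} [hp : Fact p.Prime]

theorem q_norm {q N : ℕ} (hN : 0 < N) (hq : p ^ N ∣ q - 1) (hq1 : 1 ≤ q) :
    ‖(q : ℂ_[p]) - 1‖ ≤ ‖(p : ℂ_[p])‖ ^ N ∧ ‖(q : ℂ_[p])‖ = 1 := by
  obtain ⟨t, ht⟩ := hq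
  have h1 : (q : ℂ_[p]) - 1 = (p : ℂ_[p]) ^ N * (t : ℂ_[p]) := by
    have h2 : q = p ^ N * t + 1 := by omega
    rw [h2]
    push_cast
    ring
  have h3 : ‖(q : ℂ_[p]) - 1‖ ≤ ‖(p : ℂ_[p])‖ ^ N := by
    rw [h1, norm_mul, norm_pow]
    have h4 : ‖((t : ℕ) : ℂ_[p])‖ ≤ 1 := by
      have h5 : ((t : ℕ) : ℂ_[p]) ∈ nv ℂ_[p] := natCast_mem _ t
      exact h5
    exact mul_le_of_le_one_right (pow_nonneg (norm_nonneg _) _) h4
  refine ⟨h3, ?_⟩
  have h4 : ‖(q : ℂ_[p]) - 1‖ < 1 :=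
    lt_of_le_of_lt h3 (pow_lt_one₀ (norm_nonneg _) (norm_p_lt p) hN.ne')
  have h5 : ‖(q : ℂ_[p])‖ ≤ 1 := by
    have h6 : ((q : ℕ) : ℂ_[p]) ∈ nv ℂ_[p] := natCast_mem _ q
    exact h6
  apply le_antisymm h5
  by_contra hcon
  push Not at hcon
  have h6 : ‖(1 : ℂ_[p])‖ < 1 := by
    have h7 : (1 : ℂ_[p]) = (q : ℂ_[p]) - ((q : ℂ_[p]) - 1) := by ring
    rw [h7, sub_eq_add_neg]
    apply lt_of_le_of_lt (IsUltrametricDist.norm_add_le_max _ _)
    rw [norm_neg]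
    exact max_lt hcon h4
  rw [norm_one] at h6
  exact lt_irrefl _ h6

theorem q_pow_norm (q l : ℕ) : ‖(q : ℂ_[p]) ^ l - 1‖ ≤ ‖(q : ℂ_[p]) - 1‖ := by
  have h1 : (q : ℂ_[p]) ^ l - 1 = (∑ i ∈ Finset.range l, (q : ℂ_[p]) ^ i) * ((q : ℂ_[p]) - 1) :=
    (geom_sum_mul (q : ℂ_[p]) l).symm
  rw [h1, norm_mul]
  apply mul_le_of_le_one_left (norm_nonneg _)
  have h2 : (∑ i ∈ Finset.range l, (q : ℂ_[p]) ^ i) ∈ nv ℂ_[p] :=
    sum_mem fun i _ => pow_mem (natCast_mem _ q) i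
  exact h2

/-- The values at the bottom are close to the traces. -/
theorem close {q N : ℕ} (hN : 0 < N) (hq : p ^ N ∣ q - 1) (hq1 : 1 ≤ q) {ε : ℝ}
    (hε : ‖(p : ℂ_[p])‖ ^ N < ε) (j l : ℕ) {x t s : ℂ_[p]} (hx : ‖x‖ ≤ 1)
    (h1 : ‖t - x‖ ≤ ‖((q ^ l : ℕ) : ℂ_[p]) - 1‖) (h2 : ‖t - s‖ < ε) :
    ‖(((q : ℂ_[p]) ^ j)⁻¹) ^ l * x - s‖ < ε := by
  obtain ⟨h3, h4⟩ := q_norm hN hq hq1
  have h5 : ‖(q : ℂ_[p]) - 1‖ < ε := lt_of_le_of_lt h3 hε
  have hq0 : (q : ℂ_[p]) ≠ 0 := by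
    intro h0
    rw [h0, norm_zero] at h4
    exact zero_ne_one h4
  have h6 : (((q : ℂ_[p]) ^ j)⁻¹) ^ l * x - s =
      -(((q : ℂ_[p]) ^ (j * l) - 1) * ((((q : ℂ_[p]) ^ j)⁻¹) ^ l * x)) + (-(t - x) + (t - s)) := by
    have h7 : (q : ℂ_[p]) ^ (j * l) * (((q : ℂ_[p]) ^ j)⁻¹) ^ l = 1 := by
      rw [pow_mul, ← mul_pow, mul_inv_cancel₀ (pow_ne_zero _ hq0), one_pow]
    have h8 : ((q : ℂ_[p]) ^ (j * l) - 1) * ((((q : ℂ_[p]) ^ j)⁻¹) ^ l * x) =
        ((q : ℂ_[p]) ^ (j * l) * (((q : ℂ_[p]) ^ j)⁻¹) ^ l) * x -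
          (((q : ℂ_[p]) ^ j)⁻¹) ^ l * x := by ring
    rw [h8, h7]
    ring
  rw [h6]
  have h7 : ‖(((q : ℂ_[p]) ^ j)⁻¹) ^ l * x‖ ≤ 1 := by
    rw [norm_mul, norm_pow, norm_inv, norm_pow, h4, one_pow, inv_one, one_pow, one_mul]
    exact hx
  have h8 : ‖-(((q : ℂ_[p]) ^ (j * l) - 1) * ((((q : ℂ_[p]) ^ j)⁻¹) ^ l * x))‖ < ε := by
    rw [norm_neg, norm_mul]
    refine lt_of_le_of_lt (mul_le_of_le_one_right (norm_nonneg _) h7) ?_
    exact lt_of_le_of_lt (q_pow_norm q (j * l)) h5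
  have h9 : ‖-(t - x)‖ < ε := by
    rw [norm_neg]
    refine lt_of_le_of_lt h1 ?_
    rw [Nat.cast_pow]
    exact lt_of_le_of_lt (q_pow_norm q l) h5
  apply lt_of_le_of_lt (IsUltrametricDist.norm_add_le_max _ _)
  apply max_lt h8
  apply lt_of_le_of_lt (IsUltrametricDist.norm_add_le_max _ _)
  exact max_lt h9 h2

end norms

end Pool.Agent.KT
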