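import Mathlib

/-!
# Symmetric functions of two families from their power sums
-/

set_option autoImplicit false

namespace Pool.Agent.KT

open Finset Polynomial

section defs

variable {A : Type} [CommRing A] [Algebra ℚ A]

/-- The elementary symmetric functions as functions of the power sums. -/
noncomputable def newt (s : ℕ → A) : ℕ → A
  | 0 => 1
  | (k + 1) => ((k + 1 : ℚ)⁻¹) •
      ((-1) ^ k * ∑ i : Fin (k + 1), (-1) ^ (i : ℕ) * newt s i * s (k + 1 - i))

/-- The polynomial with given power sums. -/
noncomputable def npoly (d : ℕ) (s : ℕ → A) : A[X] :=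
  ∑ j ∈ range (d + 1), (-1) ^ j * (C (newt s j) * X ^ (d - j))

/-- The power sums of the values of the polynomial with power sums `s'` at the `κ`-th powers of the
family with power sums `s`. -/
noncomputable def usum (d κ : ℕ) (s s' : ℕ → A) (k : ℕ) : A :=
  ∑ l ∈ range (κ * d * k + 1), ((expand A κ (npoly d s')) ^ k).coeff l * s l

/-- The elementary symmetric function of degree `f` of these values. -/
noncomputable def psi (d κ f : ℕ) (s s' : ℕ → A) : A := newt (usum d κ s s') f

theorem newt_zero (s : ℕ → A) : newt s 0 = 1 := by rw [newt]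

theorem newt_succ (s : ℕ → A) (k : ℕ) : newt s (k + 1) = ((k + 1 : ℚ)⁻¹) •
    ((-1) ^ k * ∑ i ∈ range (k + 1), (-1) ^ i * newt s i * s (k + 1 - i)) := by
  rw [newt, Fin.sum_univ_eq_sum_range (fun i => (-1) ^ i * newt s i * s (k + 1 - i))]

end defs

/-- Functoriality. -/
theorem newt_map {A B : Type} [CommRing A] [Algebra ℚ A] [CommRing B] [Algebra ℚ B] (f : A →+* B)
    (s : ℕ → A) (k : ℕ) : f (newt s k) = newt (fun r => f (s r)) k := by
  induction k using Nat.strong_induction_on with
  | _ k ih =>
    cases k with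
    | zero => rw [newt_zero, newt_zero, map_one]
    | succ k =>
      rw [newt_succ, newt_succ, map_rat_smul, map_mul, map_pow, map_neg, map_one, map_sum]
      congr 2
      apply Finset.sum_congr rfl
      intro i hi
      rw [Finset.mem_range] at hi
      rw [map_mul, map_mul, map_pow, map_neg, map_one, ih i hi]

theorem npoly_map {A B : Type} [CommRing A] [Algebra ℚ A] [CommRing B] [Algebra ℚ B] (f : A →+* B)
    (d : ℕ) (s : ℕ → A) : (npoly d s).map f = npoly d (fun r => f (s r)) := by
  unfold npoly
  rw [Polynomial.map_sum]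
  apply Finset.sum_congr rfl
  intro j _
  rw [Polynomial.map_mul, Polynomial.map_pow, Polynomial.map_neg, Polynomial.map_one,
    Polynomial.map_mul, Polynomial.map_C, Polynomial.map_pow, Polynomial.map_X, newt_map]

theorem usum_map {A B : Type} [CommRing A] [Algebra ℚ A] [CommRing B] [Algebra ℚ B] (f : A →+* B)
    (d κ : ℕ) (s s' : ℕ → A) (k : ℕ) :
    f (usum d κ s s' k) = usum d κ (fun r => f (s r)) (fun r => f (s' r)) k := by
  unfold usum
  rw [map_sum]
  apply Finset.sum_congr rfl
  intro l _
  rw [map_mul, ← npoly_map, ← Polynomial.coeff_map, Polynomial.map_pow, Polynomial.map_expand]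

theorem psi_map {A B : Type} [CommRing A] [Algebra ℚ A] [CommRing B] [Algebra ℚ B] (g : A →+* B)
    (d κ f : ℕ) (s s' : ℕ → A) :
    g (psi d κ f s s') = psi d κ f (fun r => g (s r)) (fun r => g (s' r)) := by
  unfold psi
  rw [newt_map]
  congr 1
  funext k
  exact usum_map g d κ s s' k

/-- The power sums of a family give its elementary symmetric functions. -/
theorem newt_family {k : Type} [Field k] [CharZero k] {d : ℕ} (x : Fin d → k) (s : ℕ → k)
    (h : ∀ r, 1 ≤ r → s r = ∑ i, x i ^ r) (j : ℕ) :
    newt s j = (Finset.univ.val.map x).esymm j := by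
  induction j using Nat.strong_induction_on with
  | _ j ih =>
    cases j with
    | zero =>
      rw [newt_zero]
      simp [Multiset.esymm]
    | succ j =>
      have h1 := congrArg (MvPolynomial.aeval x) (MvPolynomial.mul_esymm_eq_sum (Fin d) k (j + 1))
      rw [map_mul, map_natCast, MvPolynomial.aeval_esymm_eq_multiset_esymm, map_mul, map_pow,
        map_neg, map_one, map_sum, Finset.sum_filter,
        Finset.Nat.sum_antidiagonal_eq_sum_range_succ_mk, Finset.sum_range_succ] at h1
      rw [if_neg (by simp), add_zero] at h1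
      have h2 : (((j + 1 : ℕ) : ℚ) : k) ≠ 0 := by
        rw [Rat.cast_natCast]
        exact_mod_cast Nat.succ_ne_zero j
      have h3 : ((j + 1 : ℕ) : k) * newt s (j + 1) =
          ((j + 1 : ℕ) : k) * (Finset.univ.val.map x).esymm (j + 1) := by
        rw [h1, newt_succ, Rat.smul_def, Rat.cast_inv]
        have h4 : ((j + 1 : ℕ) : k) * ((((j : ℚ) + 1 : ℚ) : k)⁻¹ *
            ((-1) ^ j * ∑ i ∈ range (j + 1), (-1) ^ i * newt s i * s (j + 1 - i))) =
            (-1) ^ j * ∑ i ∈ range (j + 1), (-1) ^ i * newt s i * s (j + 1 - i) := by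
          rw [← mul_assoc]
          have h5 : ((j + 1 : ℕ) : k) * (((j : ℚ) + 1 : ℚ) : k)⁻¹ = 1 := by
            have h6 : (((j : ℚ) + 1 : ℚ) : k) = ((j + 1 : ℕ) : k) := by push_cast; rfl
            rw [h6]
            exact mul_inv_cancel₀ (by exact_mod_cast Nat.succ_ne_zero j)
          rw [h5, one_mul]
        rw [h4]
        have h7 : ((-1 : k)) ^ (j + 1 + 1) = (-1) ^ j := by
          rw [pow_succ, pow_succ]
          ring
        rw [h7]
        congr 1
        apply Finset.sum_congr rfl
        intro i hi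
        rw [Finset.mem_range] at hi
        rw [if_pos hi, map_mul, map_mul, map_pow, map_neg, map_one,
          MvPolynomial.aeval_esymm_eq_multiset_esymm, ih i hi]
        congr 1
        rw [MvPolynomial.psum, map_sum, h _ (by omega)]
        apply Finset.sum_congr rfl
        intro i' _
        rw [map_pow, MvPolynomial.aeval_X]
      exact mul_left_cancel₀ (by exact_mod_cast Nat.succ_ne_zero j) h3

theorem npoly_family {k : Type} [Field k] [CharZero k] {d : ℕ} (x : Fin d → k) (s : ℕ → k)
    (h : ∀ r, 1 ≤ r → s r = ∑ i, x i ^ r) : npoly d s = ∏ i, (X - C (x i)) := by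
  have h1 := Multiset.prod_X_sub_X_eq_sum_esymm (Finset.univ.val.map x)
  rw [Multiset.map_map, Multiset.card_map, Finset.card_val, Finset.card_univ, Fintype.card_fin]
    at h1
  unfold npoly
  rw [Finset.prod_eq_multiset_prod]
  refine Eq.trans ?_ h1.symm
  apply Finset.sum_congr rfl
  intro j _
  rw [newt_family x s h]

theorem npoly_natDegree_le {A : Type} [CommRing A] [Algebra ℚ A] (d : ℕ) (s : ℕ → A) :
    (npoly d s).natDegree ≤ d := by
  unfold npoly
  apply Polynomial.natDegree_sum_le_of_forall_le
  intro j _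
  have h1 : ((-1 : A[X])) ^ j * (C (newt s j) * X ^ (d - j)) =
      C ((-1) ^ j * newt s j) * X ^ (d - j) := by
    rw [C_mul, C_pow, C_neg, C_1, mul_assoc]
  rw [h1]
  exact (Polynomial.natDegree_C_mul_X_pow_le _ _).trans (Nat.sub_le _ _)

theorem usum_family {k : Type} [Field k] [CharZero k] {d κ : ℕ} (x y : Fin d → k)
    (s s' : ℕ → k) (h : ∀ r, s r = ∑ i, x i ^ r) (h' : ∀ r, 1 ≤ r → s' r = ∑ i, y i ^ r) (j : ℕ) :
    usum d κ s s' j = ∑ i, (∏ i', (x i ^ κ - y i')) ^ j := by
  unfold usum
  have hdeg : ((expand k κ (npoly d s')) ^ j).natDegree < κ * d * j + 1 := by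
    have h1 : ((expand k κ (npoly d s')) ^ j).natDegree ≤ j * (expand k κ (npoly d s')).natDegree :=
      Polynomial.natDegree_pow_le
    rw [Polynomial.natDegree_expand] at h1
    have h2 : j * ((npoly d s').natDegree * κ) ≤ j * (d * κ) :=
      Nat.mul_le_mul_left _ (Nat.mul_le_mul_right _ (npoly_natDegree_le d s'))
    have h3 : j * (d * κ) = κ * d * j := by ring
    omega
  have h1 : ∀ i, (∏ i', (x i ^ κ - y i')) ^ j = ∑ l ∈ range (κ * d * j + 1),
      ((expand k κ (npoly d s')) ^ j).coeff l * x i ^ l := by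
    intro i
    rw [← Polynomial.eval_eq_sum_range' hdeg, Polynomial.eval_pow, Polynomial.expand_eval,
      npoly_family y s' h', Polynomial.eval_prod]
    simp only [Polynomial.eval_sub, Polynomial.eval_X, Polynomial.eval_C]
  simp only [h1]
  rw [Finset.sum_comm]
  apply Finset.sum_congr rfl
  intro l _
  rw [h l, Finset.mul_sum]

theorem psi_family {k : Type} [Field k] [CharZero k] {d κ : ℕ} (x y : Fin d → k)
    (s s' : ℕ → k) (h : ∀ r, s r = ∑ i, x i ^ r) (h' : ∀ r, 1 ≤ r → s' r = ∑ i, y i ^ r) (f : ℕ) :
    psi d κ f s s' = (Finset.univ.val.map fun i => ∏ i', (x i ^ κ - y i')).esymm f := by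
  unfold psi
  exact newt_family _ _ (fun r _ => usum_family x y s s' h h' r) f

/-- The elementary symmetric functions of a family with many zeros. -/
theorem esymm_zeros {k : Type} [Field k] [DecidableEq k] (v : Multiset k) {e : ℕ}
    (he : e ≤ v.card) : (e < v.count 0 → v.esymm (v.card - e) = 0) ∧
      (e = v.count 0 → v.esymm (v.card - e) ≠ 0) := by
  have h1 := Multiset.prod_X_add_C_coeff v he
  have h2 : v = v.filter (fun z => z ≠ 0) + Multiset.replicate (v.count 0) 0 := by
    conv_lhs => rw [← Multiset.filter_add_not (fun z => z ≠ 0) v]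
    congr 1
    have h3 : v.filter (fun z => ¬ (z ≠ 0)) = v.filter (fun z => z = 0) := by
      apply Multiset.filter_congr
      intro z _
      rw [not_not]
    rw [h3]
    have h4 : v.filter (fun z => z = 0) = v.filter (fun z => (0 : k) = z) := by
      apply Multiset.filter_congr
      intro z _
      exact eq_comm
    rw [h4, Multiset.filter_eq]
  have h3 : (Multiset.map (fun r => X + C r) v).prod =
      (Multiset.map (fun r => X + C r) (v.filter (fun z => z ≠ 0))).prod * X ^ (v.count 0) := by
    conv_lhs => rw [h2]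
    rw [Multiset.map_add, Multiset.prod_add, Multiset.map_replicate, Multiset.prod_replicate, C_0,
      add_zero]
  constructor
  · intro hlt
    rw [← h1, h3, Polynomial.coeff_mul_X_pow', if_neg (by omega)]
  · intro heq
    rw [← h1, h3, Polynomial.coeff_mul_X_pow', if_pos heq.symm.le, ← heq, Nat.sub_self,
      Polynomial.coeff_zero_eq_eval_zero, Polynomial.eval_multiset_prod, Multiset.map_map]
    intro h0
    rw [Multiset.prod_eq_zero_iff, Multiset.mem_map] at h0
    obtain ⟨z, hz, hz0⟩ := h0
    rw [Multiset.mem_filter] at hz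
    apply hz.2
    simpa using hz0

/-- Bounded denominators. -/
theorem newt_int {A : Type} [CommRing A] [Algebra ℚ A] (R : Subring A) (s : ℕ → A)
    (hs : ∀ r, s r ∈ R) (k : ℕ) : ((k.factorial : ℕ) : A) * newt s k ∈ R := by
  induction k using Nat.strong_induction_on with
  | _ k ih =>
    cases k with
    | zero =>
      rw [newt_zero, mul_one]
      exact natCast_mem R _
    | succ k =>
      have h1 : (((k + 1).factorial : ℕ) : A) * newt s (k + 1) =
          ((-1) ^ k * ∑ i ∈ range (k + 1), (-1) ^ i * (((k.factorial : ℕ) : A) * newt s i) *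
            s (k + 1 - i)) := by
        rw [newt_succ, Nat.factorial_succ, Nat.cast_mul, mul_comm ((k + 1 : ℕ) : A), mul_assoc]
        have h2 : ∀ x : A, ((k + 1 : ℕ) : A) * (((k : ℚ) + 1)⁻¹ • x) = x := by
          intro x
          rw [mul_smul_comm, ← nsmul_eq_mul, ← Nat.cast_smul_eq_nsmul ℚ, smul_smul]
          have h3 : ((k : ℚ) + 1)⁻¹ * ((k + 1 : ℕ) : ℚ) = 1 := by
            rw [Nat.cast_succ]
            exact inv_mul_cancel₀ (by positivity)
          rw [h3, one_smul]
        rw [h2, ← mul_assoc, mul_comm ((k.factorial : ℕ) : A), mul_assoc, Finset.mul_sum]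
        congr 1
        apply Finset.sum_congr rfl
        intro i _
        ring
      rw [h1]
      apply mul_mem (pow_mem (neg_mem (one_mem R)) _)
      apply sum_mem
      intro i hi
      rw [Finset.mem_range] at hi
      apply mul_mem _ (hs _)
      apply mul_mem (pow_mem (neg_mem (one_mem R)) _)
      obtain ⟨c, hc⟩ := Nat.factorial_dvd_factorial (show i ≤ k by omega)
      have h2 : ((k.factorial : ℕ) : A) * newt s i = (c : A) * (((i.factorial : ℕ) : A) * newt s i) :=
        by rw [hc, Nat.cast_mul]; ring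
      rw [h2]
      exact mul_mem (natCast_mem R _) (ih i hi)

theorem newt_scale {A : Type} [CommRing A] [Algebra ℚ A] (c : A) (s : ℕ → A) (k : ℕ) :
    newt (fun r => c ^ r * s r) k = c ^ k * newt s k := by
  induction k using Nat.strong_induction_on with
  | _ k ih =>
    cases k with
    | zero => rw [newt_zero, newt_zero, pow_zero, one_mul]
    | succ k =>
      rw [newt_succ, newt_succ, mul_smul_comm]
      congr 1
      rw [mul_left_comm]
      congr 1
      rw [Finset.mul_sum]
      apply Finset.sum_congr rfl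
      intro i hi
      rw [Finset.mem_range] at hi
      rw [ih i hi]
      have h1 : c ^ (k + 1) = c ^ i * c ^ (k + 1 - i) := by
        rw [← pow_add]
        congr 1
        omega
      rw [h1]
      ring

/-- The denominator. -/
def den (d f : ℕ) : ℕ := f.factorial * d.factorial ^ f

theorem den_pos (d f : ℕ) : 0 < den d f :=
  Nat.mul_pos (Nat.factorial_pos f) (pow_pos (Nat.factorial_pos d) f)

theorem npoly_int {A : Type} [CommRing A] [Algebra ℚ A] (R : Subring A) (d : ℕ) (s : ℕ → A)
    (hs : ∀ r, s r ∈ R) : ∃ P : R[X], P.map R.subtype = C ((d.factorial : ℕ) : A) * npoly d s := by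
  have h1 : ∀ j, ∃ c : R, j ≤ d → (c : A) = ((d.factorial : ℕ) : A) * newt s j := by
    intro j
    by_cases hj : j ≤ d
    · obtain ⟨c, hc⟩ := Nat.factorial_dvd_factorial hj
      refine ⟨⟨((d.factorial : ℕ) : A) * newt s j, ?_⟩, fun _ => rfl⟩
      have h2 : ((d.factorial : ℕ) : A) * newt s j = (c : A) * (((j.factorial : ℕ) : A) * newt s j) :=
        by rw [hc, Nat.cast_mul]; ring
      rw [h2]
      exact mul_mem (natCast_mem R _) (newt_int R s hs j)
    · exact ⟨0, fun h => absurd h hj⟩
  choose c hc using h1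
  refine ⟨∑ j ∈ range (d + 1), (-1) ^ j * (C (c j) * X ^ (d - j)), ?_⟩
  unfold npoly
  rw [Polynomial.map_sum, Finset.mul_sum]
  apply Finset.sum_congr rfl
  intro j hj
  rw [Finset.mem_range] at hj
  rw [Polynomial.map_mul, Polynomial.map_pow, Polynomial.map_neg, Polynomial.map_one,
    Polynomial.map_mul, Polynomial.map_C, Polynomial.map_pow, Polynomial.map_X]
  have h2 : R.subtype (c j) = ((d.factorial : ℕ) : A) * newt s j := hc j (by omega)
  rw [h2, C_mul]
  ring

theorem psi_int {A : Type} [CommRing A] [Algebra ℚ A] (R : Subring A) (d κ f : ℕ) (s s' : ℕ → A)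
    (hs : ∀ r, s r ∈ R) (hs' : ∀ r, s' r ∈ R) : ((den d f : ℕ) : A) * psi d κ f s s' ∈ R := by
  obtain ⟨P, hP⟩ := npoly_int R d s' hs'
  have h1 : ∀ k, ((d.factorial : ℕ) : A) ^ k * usum d κ s s' k ∈ R := by
    intro k
    unfold usum
    rw [Finset.mul_sum]
    apply sum_mem
    intro l _
    rw [← mul_assoc]
    apply mul_mem _ (hs l)
    have h2 : ((expand R κ P) ^ k).map R.subtype =
        C (((d.factorial : ℕ) : A) ^ k) * (expand A κ (npoly d s')) ^ k := by
      rw [Polynomial.map_pow, Polynomial.map_expand, hP, map_mul, Polynomial.expand_C, mul_pow,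
        ← C_pow]
    have h3 := congrArg (fun p => Polynomial.coeff p l) h2
    simp only [Polynomial.coeff_map, Polynomial.coeff_C_mul] at h3
    rw [← h3]
    exact (((expand R κ P) ^ k).coeff l).2
  have h2 := newt_int R (fun r => ((d.factorial : ℕ) : A) ^ r * usum d κ s s' r) h1 f
  rw [newt_scale] at h2
  unfold psi den
  rw [Nat.cast_mul, Nat.cast_pow, mul_assoc]
  exact h2

/-- Continuity. -/
theorem newt_continuous {C T : Type} [NormedField C] [CharZero C] [TopologicalSpace T]
    (s : T → ℕ → C) (hs : ∀ r, Continuous fun t => s t r) (k : ℕ) :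
    Continuous fun t => newt (s t) k := by
  induction k using Nat.strong_induction_on with
  | _ k ih =>
    cases k with
    | zero =>
      simp only [newt_zero]
      exact continuous_const
    | succ k =>
      simp only [newt_succ, Rat.smul_def]
      apply Continuous.mul continuous_const
      apply Continuous.mul continuous_const
      apply continuous_finsetSum
      intro i hi
      rw [Finset.mem_range] at hi
      exact (continuous_const.mul (ih i hi)).mul (hs _)

theorem npoly_continuous {C T : Type} [NormedField C] [CharZero C] [TopologicalSpace T]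
    (s : T → ℕ → C) (hs : ∀ r, Continuous fun t => s t r) (d l : ℕ) :
    Continuous fun t => (npoly d (s t)).coeff l := by
  have h1 : ∀ t, (npoly d (s t)).coeff l =
      ∑ j ∈ range (d + 1), (-1) ^ j * (newt (s t) j * if l = d - j then 1 else 0) := by
    intro t
    unfold npoly
    rw [Polynomial.finsetSum_coeff]
    apply Finset.sum_congr rfl
    intro j _
    have h2 : ((-1 : C[X])) ^ j * (Polynomial.C (newt (s t) j) * X ^ (d - j)) =
        Polynomial.C ((-1) ^ j * newt (s t) j) * X ^ (d - j) := by
      rw [Polynomial.C_mul, Polynomial.C_pow, Polynomial.C_neg, Polynomial.C_1, mul_assoc]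
    rw [h2, Polynomial.coeff_C_mul, Polynomial.coeff_X_pow, mul_assoc]
  simp only [h1]
  apply continuous_finsetSum
  intro j _
  exact continuous_const.mul ((newt_continuous s hs j).mul continuous_const)

theorem pow_coeff_continuous {C T : Type} [NormedField C] [TopologicalSpace T]
    (P : T → C[X]) (hP : ∀ l, Continuous fun t => (P t).coeff l) (k l : ℕ) :
    Continuous fun t => ((P t) ^ k).coeff l := by
  induction k generalizing l with
  | zero =>
    simp only [pow_zero]
    exact continuous_const
  | succ k ih =>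
    simp only [pow_succ, Polynomial.coeff_mul]
    apply continuous_finsetSum
    intro a _
    exact (ih _).mul (hP _)

theorem psi_continuous {C T : Type} [NormedField C] [CharZero C] [TopologicalSpace T] {κ : ℕ}
    (hκ : 0 < κ) (s s' : T → ℕ → C) (hs : ∀ r, Continuous fun t => s t r)
    (hs' : ∀ r, Continuous fun t => s' t r) (d f : ℕ) :
    Continuous fun t => psi d κ f (s t) (s' t) := by
  unfold psi
  apply newt_continuous
  intro k
  unfold usum
  apply continuous_finsetSum
  intro l _
  refine Continuous.mul ?_ (hs l)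
  apply pow_coeff_continuous
  intro l'
  simp only [Polynomial.coeff_expand hκ]
  split_ifs
  · exact npoly_continuous s' hs' d _
  · exact continuous_const

/-- The values near a point. -/
theorem psi_near {C : Type} [NormedField C] [CharZero C] {κ : ℕ} (hκ : 0 < κ) (d f : ℕ)
    (s₀ : ℕ → C) (h : psi d κ f s₀ s₀ ≠ 0) :
    ∃ c ε : ℝ, 0 < c ∧ 0 < ε ∧ ∃ I : Finset ℕ, ∀ s : ℕ → C, (∀ l ∈ I, ‖s l - s₀ l‖ < ε) →
      c ≤ ‖psi d κ f s s‖ := by
  have h1 : Continuous fun s : ℕ → C => ‖psi d κ f s s‖ :=
    (psi_continuous hκ (fun s : ℕ → C => s) (fun s => s) (fun r => continuous_apply r)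
      (fun r => continuous_apply r) d f).norm
  have h0 : 0 < ‖psi d κ f s₀ s₀‖ := norm_pos_iff.mpr h
  have h2 : {s : ℕ → C | ‖psi d κ f s₀ s₀‖ / 2 < ‖psi d κ f s s‖} ∈ nhds s₀ := by
    apply (isOpen_lt continuous_const h1).mem_nhds
    rw [Set.mem_ofPred_eq]
    exact half_lt_self h0
  rw [nhds_pi, Filter.mem_pi] at h2
  obtain ⟨I, hI, t, ht, hIt⟩ := h2
  have h3 : ∀ i, ∃ ε : ℝ, 0 < ε ∧ ∀ z, ‖z - s₀ i‖ < ε → z ∈ t i := by
    intro i
    obtain ⟨ε, hε, h4⟩ := Metric.mem_nhds_iff.mp (ht i)
    refine ⟨ε, hε, ?_⟩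
    intro z hz
    apply h4
    rw [Metric.mem_ball, dist_eq_norm]
    exact hz
  choose ε hε hεt using h3
  obtain ⟨ε₀, hε₀, hle⟩ : ∃ ε₀ : ℝ, 0 < ε₀ ∧ ∀ i ∈ hI.toFinset, ε₀ ≤ ε i := by
    have key : ∀ J : Finset ℕ, ∃ ε₀ : ℝ, 0 < ε₀ ∧ ∀ i ∈ J, ε₀ ≤ ε i := by
      intro J
      induction J using Finset.induction_on with
      | empty => exact ⟨1, one_pos, fun i hi => absurd hi (Finset.notMem_empty i)⟩
      | insert a J _ ih =>
        obtain ⟨ε₁, h5, h6⟩ := ih
        refine ⟨min ε₁ (ε a), lt_min h5 (hε a), ?_⟩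
        intro i hi
        rw [Finset.mem_insert] at hi
        rcases hi with rfl | hi
        · exact min_le_right _ _
        · exact (min_le_left _ _).trans (h6 i hi)
    exact key _
  refine ⟨‖psi d κ f s₀ s₀‖ / 2, ε₀, half_pos h0, hε₀, hI.toFinset, ?_⟩
  intro s hs
  have h4 : s ∈ {s : ℕ → C | ‖psi d κ f s₀ s₀‖ / 2 < ‖psi d κ f s s‖} := by
    apply hIt
    rw [Set.mem_pi]
    intro i hi
    apply hεt
    have h5 : i ∈ hI.toFinset := hI.mem_toFinset.mpr hi
    exact lt_of_lt_of_le (hs i h5) (hle i h5)
  exact le_of_lt h4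

end Pool.Agent.KT
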