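import Pool.Agent.Lib_helper58.KT.Defs
import Pool.Agent.Lib_helper61.TU.Main

/-!
# The sums of all levels as values of one polynomial
-/

set_option autoImplicit false

namespace Pool.Agent.KT

open NumberField Polynomial
open Pool.Agent.TT Pool.Agent.TB Pool.Agent.TF Pool.Agent.RF Pool.Agent.TU

section symbol

variable {K : Type} [Field K] {F : Type} [Field F] [Fintype F] {m : ℕ} {ζ : 𝓞 K} {φ : 𝓞 K →+* F}

/-- The symbol is the root of unity with the right reduction. -/
theorem sym_eq (hm : 0 < m) (hζ : IsPrimitiveRoot ζ m) (hφ : IsPrimitiveRoot (φ ζ) m) {y : F}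
    {z : 𝓞 K} (hz : z ^ m = 1) (hy : y ^ ((Fintype.card F - 1) / m) = φ z) :
    residueSymbol m ζ φ y = z := by
  classical
  have : NeZero m := ⟨hm.ne'⟩
  obtain ⟨i, hi, rfl⟩ := hζ.eq_pow_of_pow_eq_one hz
  unfold residueSymbol
  rw [Finset.sum_eq_single (⟨i, hi⟩ : Fin m)]
  · rw [if_pos]
    rw [hy, map_pow]
  · intro j _ hj
    rw [if_neg]
    rw [hy, map_pow]
    intro h
    apply hj
    apply Fin.ext
    exact (hφ.pow_inj hi j.2 h).symm
  · intro h
    exact absurd (Finset.mem_univ _) h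

theorem sym_map {L : Type} [Field L] [Algebra K L] (ψ : 𝓞 L →+* F) (y : F) :
    algebraMap (𝓞 K) (𝓞 L) (residueSymbol m ζ (ψ.comp (algebraMap (𝓞 K) (𝓞 L))) y) =
      residueSymbol m (algebraMap (𝓞 K) (𝓞 L) ζ) ψ y := by
  classical
  unfold residueSymbol
  rw [map_sum]
  apply Finset.sum_congr rfl
  intro j _
  rw [RingHom.comp_apply]
  split_ifs
  · rw [map_pow]
  · rw [map_zero]

theorem sym_congr {A : Type} [CommRing A] (f f' : 𝓞 K →+* A) (h : f ζ = f' ζ) (y : F) :
    f (residueSymbol m ζ φ y) = f' (residueSymbol m ζ φ y) := by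
  classical
  unfold residueSymbol
  rw [map_sum, map_sum]
  apply Finset.sum_congr rfl
  intro j _
  split_ifs
  · rw [map_pow, map_pow, h]
  · rw [map_zero, map_zero]

theorem sym_mem {A : Type} [CommRing A] (f : 𝓞 K →+* A) (R : Subring A) (h : f ζ ∈ R) (y : F) :
    f (residueSymbol m ζ φ y) ∈ R := by
  classical
  unfold residueSymbol
  rw [map_sum]
  apply sum_mem
  intro j _
  split_ifs
  · rw [map_pow]
    exact pow_mem h _
  · rw [map_zero]
    exact zero_mem _

end symbol

open Classical in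
/-- The generating polynomial of the strata with respect to an index function. -/
noncomputable def theta {K : Type} [Field K] {A : Type} [CommRing A] (f : 𝓞 K →+* A)
    {F : Type} [Field F] [Fintype F] (m : ℕ) (ζ : 𝓞 K) (φ : 𝓞 K →+* F) (a : F → ℕ) {s : ℕ}
    (S : Fin s → TowerStratum K) : A[X] :=
  ∑ i, C ((S i).c : A) * ∑ x : Fin (S i).M → F,
    if (S i).val φ x = 0 then 0 else
      C (f (residueSymbol m ζ φ ((S i).H.eval₂ φ x))) * X ^ a ((S i).val φ x)

section theta

variable {K : Type} [Field K] {F : Type} [Field F] [Fintype F] {m : ℕ} {ζ : 𝓞 K} {s : ℕ}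
  (S : Fin s → TowerStratum K) (a : F → ℕ)

theorem theta_map {A B : Type} [CommRing A] [CommRing B] (f : 𝓞 K →+* A) (g : A →+* B)
    (φ : 𝓞 K →+* F) : (theta f m ζ φ a S).map g = theta (g.comp f) m ζ φ a S := by
  classical
  unfold theta
  rw [Polynomial.map_sum]
  apply Finset.sum_congr rfl
  intro i _
  rw [Polynomial.map_mul, Polynomial.map_C, map_intCast, Polynomial.map_sum]
  congr 1
  apply Finset.sum_congr rfl
  intro x _
  split_ifs
  · rw [Polynomial.map_zero]
  · rw [Polynomial.map_mul, Polynomial.map_C, Polynomial.map_pow, Polynomial.map_X,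
      RingHom.comp_apply]

theorem theta_congr {A : Type} [CommRing A] (f f' : 𝓞 K →+* A) (h : f ζ = f' ζ)
    (φ : 𝓞 K →+* F) : theta f m ζ φ a S = theta f' m ζ φ a S := by
  classical
  unfold theta
  apply Finset.sum_congr rfl
  intro i _
  congr 1
  apply Finset.sum_congr rfl
  intro x _
  rw [sym_congr f f' h]

theorem theta_mem {A : Type} [CommRing A] (f : 𝓞 K →+* A) (R : Subring A) (h : f ζ ∈ R) {w : A}
    (hw : w ∈ R) (φ : 𝓞 K →+* F) : (theta f m ζ φ a S).eval w ∈ R := by
  classical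
  unfold theta
  rw [Polynomial.eval_finsetSum]
  apply sum_mem
  intro i _
  rw [Polynomial.eval_mul, Polynomial.eval_C, Polynomial.eval_finsetSum]
  apply mul_mem (intCast_mem R _)
  apply sum_mem
  intro x _
  split_ifs
  · rw [Polynomial.eval_zero]
    exact zero_mem R
  · rw [Polynomial.eval_mul, Polynomial.eval_C, Polynomial.eval_pow, Polynomial.eval_X]
    exact mul_mem (sym_mem f R h _) (pow_mem hw _)

/-- The values of the generating polynomial are the sums of the levels. -/
theorem theta_eval {L : Type} [Field L] [Algebra K L] {n : ℕ} {ω : 𝓞 L} {φ : 𝓞 L →+* F}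
    (hn : 0 < n) (hω : IsPrimitiveRoot ω n) (hφω : IsPrimitiveRoot (φ ω) n)
    (hnq : n ∣ Fintype.card F - 1) {A : Type} [CommRing A] (f : 𝓞 L →+* A) (w : 𝓞 L)
    (hw : w ^ n = 1) (ha : ∀ y : F, y ≠ 0 → y ^ ((Fintype.card F - 1) / n) = φ w ^ a y) :
    (theta (f.comp (algebraMap (𝓞 K) (𝓞 L))) m ζ (φ.comp (algebraMap (𝓞 K) (𝓞 L))) a S).eval
      (f w) = f (towerSum m ζ n ω φ S) := by
  classical
  unfold theta towerSum
  rw [Polynomial.eval_finsetSum, map_sum]
  apply Finset.sum_congr rfl
  intro i _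
  rw [Polynomial.eval_mul, Polynomial.eval_C, Polynomial.eval_finsetSum, map_mul, map_intCast,
    map_sum]
  congr 1
  apply Finset.sum_congr rfl
  intro x _
  set y : F := (S i).val (φ.comp (algebraMap (𝓞 K) (𝓞 L))) x with hy
  by_cases hy0 : y = 0
  · rw [if_pos hy0, Polynomial.eval_zero, hy0, tw_symbol_zero hn hφω hnq, mul_zero, map_zero]
  · rw [if_neg hy0, Polynomial.eval_mul, Polynomial.eval_C, Polynomial.eval_pow,
      Polynomial.eval_X, map_mul, RingHom.comp_apply, sym_map]
    have h1 : residueSymbol n ω φ y = w ^ a y := by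
      apply sym_eq hn hω hφω
      · rw [← pow_mul, mul_comm, pow_mul, hw, one_pow]
      · rw [ha y hy0, map_pow]
    rw [h1, map_pow]

end theta

end Pool.Agent.KT
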