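import Pool.Agent.Lib_helper58.KT.Zero
import Pool.Agent.Lib_helper58.KT.Sym

/-!
# The `p`-adic value of the polynomial of the tower
-/

set_option autoImplicit false

namespace Pool.Agent.KT

open NumberField Polynomial
open Pool.Agent.TT Pool.Agent.TB Pool.Agent.TF Pool.Agent.RF Pool.Agent.TBL Pool.Agent.TU

section

theorem one_le_of_mem {C : Type} [NormedField C] {R : Subring C} (hR : ∀ x ∈ R, ‖x‖ ≤ 1) (Q : R[X]) :
    ‖(Q.map R.subtype).eval 1‖ ≤ 1 := by
  have h1 : (Q.map R.subtype).eval 1 = R.subtype (Q.eval 1) := by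
    rw [Polynomial.eval_map, ← map_one R.subtype, Polynomial.eval₂_at_apply]
  rw [h1]
  exact hR _ (Q.eval 1).2

variable {C : Type} [NormedField C] [IsUltrametricDist C] [CharZero C]

/-- The value at `1` is small if there are many binomial divisors. -/
theorem padic_bound (d κ f : ℕ) (c : C) (hc : ‖c‖ ≤ 1) (Θ : ℕ → C[X])
    (hΘ : ∀ r, Θ r ∈ (Polynomial.mapRingHom (nv C).toSubring.subtype).range) (T : Finset ℕ)
    (N : ℕ → ℕ) (hN : ∀ n ∈ T, 0 < N n) (a : ℕ → C) (ha : ∀ n ∈ T, ‖a n‖ ≤ 1) {δ : ℝ}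
    (hδ : ∀ n ∈ T, ‖1 - a n‖ ≤ δ)
    (hdvd : ∏ n ∈ T, (X ^ N n - Polynomial.C (a n)) ∣ hpoly d κ f c Θ) :
    ‖((den d f : ℕ) : C)‖ * ‖(hpoly d κ f c Θ).eval 1‖ ≤ δ ^ T.card := by
  classical
  set R : Subring C := (nv C).toSubring with hR
  have hRn : ∀ x ∈ R, ‖x‖ ≤ 1 := fun x hx => hx
  have hRn' : ∀ x, ‖x‖ ≤ 1 → x ∈ R := fun x hx => hx
  set R' : Subring C[X] := (Polynomial.mapRingHom R.subtype).range with hR'
  have hC : ∀ x, ‖x‖ ≤ 1 → Polynomial.C x ∈ R' := by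
    intro x hx
    exact ⟨Polynomial.C ⟨x, hx⟩, by rw [Polynomial.coe_mapRingHom, Polynomial.map_C]; rfl⟩
  have hstw : ∀ r, stw d c Θ r ∈ R' := by
    intro r
    unfold stw
    split_ifs
    · exact natCast_mem R' d
    · exact mul_mem (hC _ (by rw [norm_pow]; exact pow_le_one₀ (norm_nonneg _) hc)) (hΘ r)
  have hexp : ∀ r, expand C κ (stw d c Θ r) ∈ R' := by
    intro r
    obtain ⟨P, hP⟩ := hstw r
    refine ⟨expand R κ P, ?_⟩
    rw [Polynomial.coe_mapRingHom, Polynomial.map_expand]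
    rw [Polynomial.coe_mapRingHom] at hP
    rw [hP]
  obtain ⟨H, hH⟩ : ((den d f : ℕ) : C[X]) * hpoly d κ f c Θ ∈ R' :=
    psi_int R' d κ f _ _ hstw hexp
  rw [Polynomial.coe_mapRingHom] at hH
  set b : ℕ → R := fun n => if h : n ∈ T then ⟨a n, ha n h⟩ else 0 with hb
  have hbn : ∀ n ∈ T, (b n : C) = a n := by
    intro n hn
    simp only [hb]
    rw [dif_pos hn]
  set D : R[X] := ∏ n ∈ T, (X ^ N n - Polynomial.C (b n)) with hD
  have hDm : D.Monic := by
    apply Polynomial.monic_prod_of_monic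
    intro n hn
    exact Polynomial.monic_X_pow_sub_C _ (hN n hn).ne'
  have hDmap : D.map R.subtype = ∏ n ∈ T, (X ^ N n - Polynomial.C (a n)) := by
    rw [hD, Polynomial.map_prod]
    apply Finset.prod_congr rfl
    intro n hn
    rw [Polynomial.map_sub, Polynomial.map_pow, Polynomial.map_X, Polynomial.map_C]
    have h1 : R.subtype (b n) = a n := hbn n hn
    rw [h1]
  have hdvd2 : D ∣ H := by
    rw [← Polynomial.map_dvd_map R.subtype Subtype.val_injective hDm, hH, hDmap]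
    exact Dvd.dvd.mul_left hdvd _
  obtain ⟨Q, hQ⟩ := hdvd2
  have h1 : ((den d f : ℕ) : C) * (hpoly d κ f c Θ).eval 1 =
      (∏ n ∈ T, (1 - a n)) * (Q.map R.subtype).eval 1 := by
    have h2 := congrArg (Polynomial.eval 1) hH
    rw [Polynomial.eval_mul, Polynomial.eval_natCast] at h2
    rw [← h2, hQ, Polynomial.map_mul, Polynomial.eval_mul, hDmap, Polynomial.eval_prod]
    congr 1
    apply Finset.prod_congr rfl
    intro n _
    rw [Polynomial.eval_sub, Polynomial.eval_pow, Polynomial.eval_X, Polynomial.eval_C, one_pow]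
  rw [← norm_mul, h1, norm_mul, norm_prod]
  calc (∏ n ∈ T, ‖1 - a n‖) * ‖(Q.map R.subtype).eval 1‖ ≤ (∏ n ∈ T, ‖1 - a n‖) * 1 := by
        apply mul_le_mul_of_nonneg_left (one_le_of_mem hRn Q)
        exact Finset.prod_nonneg fun n _ => norm_nonneg _
    _ = ∏ n ∈ T, ‖1 - a n‖ := mul_one _
    _ ≤ ∏ n ∈ T, δ := Finset.prod_le_prod (fun n _ => norm_nonneg _) hδ
    _ = δ ^ T.card := by rw [Finset.prod_const]

end

/-- Roots of unity of `p`-power order are uniformly close to `1`. -/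
theorem zeta_close (p : ℕ) [hp : Fact p.Prime] (k : ℕ) : ∃ δ : ℝ, 0 < δ ∧ δ < 1 ∧
    ∀ z : ℂ_[p], z ^ p ^ k = 1 → ‖1 - z‖ ≤ δ := by
  classical
  have hpk : 0 < p ^ k := pow_pos hp.out.pos k
  have h1 : ∀ z : ℂ_[p], z ^ p ^ k = 1 → ‖1 - z‖ < 1 := by
    intro z hz
    let ζ : 𝓞 ℂ_[p] := ⟨z, by
      refine ⟨X ^ p ^ k - 1, Polynomial.monic_X_pow_sub_C 1 hpk.ne', ?_⟩
      rw [Polynomial.eval₂_sub, Polynomial.eval₂_X_pow, Polynomial.eval₂_one, hz, sub_self]⟩
    have hζ : ζ ^ p ^ k = 1 := by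
      apply RingOfIntegers.coe_injective
      rw [map_pow, map_one]
      exact hz
    have h2 := er_zeta (RingHom.id ℂ_[p]) hp.out (norm_p_lt p) hζ 1
    rw [pow_one, RingHom.id_apply] at h2
    rw [norm_sub_rev]
    exact h2
  have key : ∀ J : Finset ℂ_[p], (∀ z ∈ J, ‖1 - z‖ < 1) →
      ∃ δ : ℝ, 0 < δ ∧ δ < 1 ∧ ∀ z ∈ J, ‖1 - z‖ ≤ δ := by
    intro J
    induction J using Finset.induction_on with
    | empty =>
      intro _
      exact ⟨1 / 2, by norm_num, by norm_num, fun z hz => absurd hz (Finset.notMem_empty z)⟩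
    | insert a J _ ih =>
      intro hJ
      obtain ⟨δ, h0, h1, h2⟩ := ih fun z hz => hJ z (Finset.mem_insert_of_mem hz)
      refine ⟨max δ ‖1 - a‖, lt_max_of_lt_left h0, max_lt h1 (hJ a (Finset.mem_insert_self a J)), ?_⟩
      intro z hz
      rw [Finset.mem_insert] at hz
      rcases hz with rfl | hz
      · exact le_max_right _ _
      · exact (h2 z hz).trans (le_max_left _ _)
  obtain ⟨δ, h2, h3, h4⟩ := key (Polynomial.nthRoots (p ^ k) (1 : ℂ_[p])).toFinset (by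
    intro z hz
    rw [Multiset.mem_toFinset, Polynomial.mem_nthRoots hpk] at hz
    exact h1 z hz)
  refine ⟨δ, h2, h3, ?_⟩
  intro z hz
  apply h4
  rw [Multiset.mem_toFinset, Polynomial.mem_nthRoots hpk]
  exact hz

end Pool.Agent.KT
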