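import Pool.Agent.Lib_helper58.KT.Newt
import Pool.Agent.Lib_helper58.KT.Aut

/-!
# The zeros of the polynomial of the tower
-/

set_option autoImplicit false

namespace Pool.Agent.KT

open Polynomial IntermediateField
open Pool.Agent.TT (Qbar)

/-- The twisted power sums. -/
noncomputable def stw {A : Type} [CommRing A] (d : ℕ) (c : A) (Θ : ℕ → A[X]) (r : ℕ) : A[X] :=
  if r = 0 then (d : A[X]) else C (c ^ r) * Θ r

/-- The polynomial of the tower. -/
noncomputable def hpoly {A : Type} [CommRing A] [Algebra ℚ A] (d κ f : ℕ) (c : A)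
    (Θ : ℕ → A[X]) : A[X] :=
  psi d κ f (stw d c Θ) (fun r => expand A κ (stw d c Θ r))

theorem stw_map {A B : Type} [CommRing A] [CommRing B] (g : A →+* B) (d : ℕ) (c : A)
    (Θ : ℕ → A[X]) (r : ℕ) : (stw d c Θ r).map g = stw d (g c) (fun r => (Θ r).map g) r := by
  unfold stw
  split_ifs
  · rw [Polynomial.map_natCast]
  · rw [Polynomial.map_mul, Polynomial.map_C, map_pow]

theorem hpoly_map {A B : Type} [CommRing A] [Algebra ℚ A] [CommRing B] [Algebra ℚ B]
    (g : A →+* B) (d κ f : ℕ) (c : A) (Θ : ℕ → A[X]) :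
    (hpoly d κ f c Θ).map g = hpoly d κ f (g c) (fun r => (Θ r).map g) := by
  unfold hpoly
  rw [← Polynomial.coe_mapRingHom, psi_map]
  simp only [Polynomial.coe_mapRingHom, Polynomial.map_expand, stw_map]

theorem hpoly_eval {A : Type} [CommRing A] [Algebra ℚ A] (d κ f : ℕ) (c : A)
    (Θ : ℕ → A[X]) (w : A) : (hpoly d κ f c Θ).eval w =
      psi d κ f (fun r => (stw d c Θ r).eval w) (fun r => (stw d c Θ r).eval (w ^ κ)) := by
  unfold hpoly
  rw [← Polynomial.coe_evalRingHom, psi_map]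
  simp only [Polynomial.coe_evalRingHom, Polynomial.expand_eval]

theorem stw_eval {A : Type} [CommRing A] (d : ℕ) (c : A) (Θ : ℕ → A[X]) (r : ℕ) (w : A) :
    (stw d c Θ r).eval w = if r = 0 then (d : A) else c ^ r * (Θ r).eval w := by
  unfold stw
  split_ifs
  · rw [Polynomial.eval_natCast]
  · rw [Polynomial.eval_mul, Polynomial.eval_C]

open Classical in
/-- **A level with many Tate classes is a zero.** -/
theorem level_zero {p m n : ℕ} (hp : p.Prime) (hm : 0 < m) {zm w : Qbar} (hzm : zm ^ m = 1)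
    (hw : IsPrimitiveRoot w (p ^ n)) {Θ : ℕ → Qbar[X]}
    (hτ : ∀ τ : Qbar ≃ₐ[ℚ] Qbar, τ zm = zm → ∀ r, (Θ r).map (τ : Qbar →+* Qbar) = Θ r)
    (hmem : ∀ R : Subring Qbar, zm ∈ R → w ∈ R → ∀ r, (Θ r).eval w ∈ R) {d κ e : ℕ}
    (he : e ≤ d) (hκ : κ ≡ 1 [MOD p * m * (d + 1).factorial]) (c : ℚ)
    (α : Fin d → Qbar) (hα : ∀ r, 1 ≤ r → ∑ i, α i ^ r = (Θ r).eval w) {M : ℕ} (hM : 0 < M)
    (hcard : e < (Finset.univ.filter fun i => ((c : Qbar) * α i) ^ M = 1).card) :
    (hpoly d κ (d - e) (c : Qbar) Θ).eval w = 0 := by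
  set x : Fin d → Qbar := fun i => (c : Qbar) * α i with hx
  have hpn : 0 < p ^ n := pow_pos hp.pos n
  have hm0 : 0 < m * p ^ n := Nat.mul_pos hm hpn
  have hs : ∀ r, (stw d (c : Qbar) Θ r).eval w = ∑ i, x i ^ r := by
    intro r
    rw [stw_eval]
    by_cases hr : r = 0
    · subst hr
      rw [if_pos rfl]
      simp
    · rw [if_neg hr, ← hα r (by omega), Finset.mul_sum]
      apply Finset.sum_congr rfl
      intro i _
      rw [hx, mul_pow]
  -- the orders
  obtain ⟨z, hz⟩ := exists_prim hm0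
  have : NeZero (m * p ^ n) := ⟨hm0.ne'⟩
  set L : IntermediateField ℚ Qbar := IntermediateField.adjoin ℚ {z} with hL
  have hzL : z ∈ L := IntermediateField.mem_adjoin_simple_self ℚ z
  have hzmL : zm ∈ L.toSubring := by
    obtain ⟨i, -, rfl⟩ := hz.eq_pow_of_pow_eq_one (ξ := zm) (by rw [pow_mul, hzm, one_pow])
    exact pow_mem hzL i
  have hwL : w ∈ L.toSubring := by
    obtain ⟨i, -, rfl⟩ := hz.eq_pow_of_pow_eq_one (ξ := w) (by
      rw [mul_comm, pow_mul, hw.pow_eq_one, one_pow])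
    exact pow_mem hzL i
  have hsL : ∀ r, (stw d (c : Qbar) Θ r).eval w ∈ L := by
    intro r
    rw [stw_eval]
    split_ifs
    · exact _root_.natCast_mem L d
    · apply mul_mem
      · apply pow_mem
        have h1 := L.algebraMap_mem c
        exact h1
      · exact hmem L.toSubring hzmL hwL r
  let sL : ℕ → L := fun r => ⟨(stw d (c : Qbar) Θ r).eval w, hsL r⟩
  have hf : (npoly d sL).map (algebraMap L Qbar) = ∏ i, (X - C (x i)) := by
    rw [npoly_map]
    exact npoly_family x _ fun r _ => hs r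
  have hfne : npoly d sL ≠ 0 := by
    intro h0
    rw [h0, Polynomial.map_zero] at hf
    exact (Polynomial.monic_prod_of_monic Finset.univ (fun i => X - C (x i))
      fun i _ => Polynomial.monic_X_sub_C _).ne_zero hf.symm
  have hnotdvd : ∀ r : ℕ, r.Prime → r ∣ κ → ¬ r ∣ p * m * (d + 1).factorial := by
    intro r hr h1 h2
    have h3 : κ ≡ 1 [MOD r] := hκ.of_dvd h2
    have h4 : r ∣ 1 := (h3.dvd_iff dvd_rfl).mp h1
    exact hr.one_lt.ne' (Nat.dvd_one.mp h4)
  have hprime : ∀ r : ℕ, r.Prime → r ∣ κ → ¬ r ∣ m * p ^ n := by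
    intro r hr h1 h2
    apply hnotdvd r hr h1
    apply Dvd.dvd.mul_right
    rcases hr.dvd_mul.mp h2 with h3 | h3
    · exact Dvd.dvd.mul_left h3 p
    · exact Dvd.dvd.mul_right (hr.dvd_of_dvd_pow h3) m
  have hordcop : ∀ i, x i ^ M = 1 → Nat.Coprime κ (orderOf (x i)) := by
    intro i hi
    apply Nat.Coprime.symm
    apply Nat.coprime_of_dvd
    intro r hr h1 h2
    have h3 := kt_order hm0 hz L hL hfne (npoly_natDegree_le d sL) (x := x i) (by
      rw [← Polynomial.eval_map, hf, Polynomial.eval_prod]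
      apply Finset.prod_eq_zero (Finset.mem_univ i)
      rw [Polynomial.eval_sub, Polynomial.eval_X, Polynomial.eval_C, sub_self]) hM hi hr h1
      (hprime r hr h2)
    exact hnotdvd r hr h2 (Dvd.dvd.mul_left ((Nat.Prime.dvd_factorial hr).mpr h3) _)
  -- the automorphism
  set I : Finset (Fin d) := Finset.univ.filter fun i => x i ^ M = 1 with hI
  set N : ℕ := m * p ^ n * ∏ i ∈ I, orderOf (x i) with hN
  have hordpos : ∀ i ∈ I, 0 < orderOf (x i) := by
    intro i hi
    rw [hI, Finset.mem_filter] at hi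
    exact (isOfFinOrder_iff_pow_eq_one.mpr ⟨M, hM, hi.2⟩).orderOf_pos
  have hNpos : 0 < N := Nat.mul_pos hm0 (Finset.prod_pos hordpos)
  have hκN : Nat.Coprime κ N := by
    apply Nat.Coprime.mul_right
    · apply Nat.Coprime.symm
      apply Nat.coprime_of_dvd
      intro r hr h1 h2
      exact hprime r hr h2 h1
    · apply Nat.Coprime.prod_right
      intro i hi
      rw [hI, Finset.mem_filter] at hi
      exact hordcop i hi.2
  obtain ⟨τ, hτN⟩ := kt_aut hNpos hκN
  have hτzm : τ zm = zm := by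
    rw [hτN zm (by rw [hN, mul_assoc, pow_mul, hzm, one_pow])]
    have hfin' : IsOfFinOrder zm := isOfFinOrder_iff_pow_eq_one.mpr ⟨m, hm, hzm⟩
    have h1 : zm ^ κ = zm ^ 1 := by
      rw [hfin'.pow_eq_pow_iff_modEq]
      exact hκ.of_dvd (Dvd.dvd.mul_right (Dvd.dvd.mul_left (orderOf_dvd_of_pow_eq_one hzm) p) _)
    rw [h1, pow_one]
  have hτw : τ w = w ^ κ := by
    apply hτN
    rw [hN, mul_comm m, mul_assoc, pow_mul, hw.pow_eq_one, one_pow]
  have hs' : ∀ r, (stw d (c : Qbar) Θ r).eval (w ^ κ) = ∑ i, (τ (x i)) ^ r := by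
    intro r
    have h1 : ∑ i, (τ (x i)) ^ r = τ (∑ i, x i ^ r) := by
      rw [map_sum]
      simp only [map_pow]
    rw [h1, ← hs r, ← hτw]
    have h2 : (stw d (c : Qbar) Θ r).map (τ : Qbar →+* Qbar) = stw d (c : Qbar) Θ r := by
      rw [stw_map]
      simp only [hτ τ hτzm]
      congr 1
      exact map_ratCast (τ : Qbar →+* Qbar) c
    conv_lhs => rw [← h2]
    rw [Polynomial.eval_map]
    exact (Polynomial.eval₂_at_apply (τ : Qbar →+* Qbar) w)
  -- the value
  rw [hpoly_eval, psi_family x (fun i => τ (x i)) _ _ hs (fun r _ => hs' r)]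
  have hc1 : (Finset.univ.val.map fun i => ∏ i', (x i ^ κ - τ (x i'))).card = d := by
    rw [Multiset.card_map, Finset.card_val, Finset.card_univ, Fintype.card_fin]
  have h1 := (esymm_zeros (Finset.univ.val.map fun i => ∏ i', (x i ^ κ - τ (x i')))
    (e := e) (by rw [hc1]; exact he)).1
  rw [hc1] at h1
  apply h1
  rw [Multiset.count_map]
  refine lt_of_lt_of_le hcard ?_
  rw [Finset.card_def, Finset.filter_val]
  apply Multiset.card_le_card
  apply Multiset.monotone_filter_right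
  intro i hi
  have h2 : τ (x i) = x i ^ κ := by
    apply hτN
    have h3 : i ∈ I := by
      rw [hI, Finset.mem_filter]
      exact ⟨Finset.mem_univ i, hi⟩
    obtain ⟨b, hb⟩ := Finset.dvd_prod_of_mem (fun i => orderOf (x i)) h3
    rw [hN, hb, mul_comm, mul_assoc, pow_mul, pow_orderOf_eq_one, one_pow]
  exact (Finset.prod_eq_zero (Finset.mem_univ i) (by rw [h2, sub_self])).symm

/-- **The polynomial is divisible by binomials.** -/
theorem levels_dvd {p m k : ℕ} (hp : p.Prime) (hm : 0 < m) (hk : ¬ p ^ (k + 1) ∣ m) (hk1 : 1 ≤ k)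
    {zm : Qbar} (hzm : zm ^ m = 1) (h : Qbar[X])
    (hτ : ∀ τ : Qbar ≃ₐ[ℚ] Qbar, τ zm = zm → h.map (τ : Qbar →+* Qbar) = h) (T : Finset ℕ)
    (hT : ∀ n ∈ T, k ≤ n) (w : ℕ → Qbar) (hw : ∀ n ∈ T, IsPrimitiveRoot (w n) (p ^ n))
    (h0 : ∀ n ∈ T, h.eval (w n) = 0) :
    ∏ n ∈ T, (X ^ p ^ (n - k) - C (w n ^ p ^ (n - k))) ∣ h := by
  classical
  apply Finset.prod_dvd_of_coprime
  · intro n hn n' hn' hne
    rw [Finset.mem_coe] at hn hn'
    rw [Function.onFun, isCoprime_iff_aeval_ne_zero_of_isAlgClosed Qbar Qbar]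
    intro ξ
    by_contra hcon
    push Not at hcon
    obtain ⟨h1, h2⟩ := hcon
    simp only [map_sub, map_pow, aeval_X, aeval_C, Algebra.algebraMap_self, RingHom.id_apply,
      sub_eq_zero] at h1 h2
    obtain ⟨τ, -, hτ1⟩ := kt_conj hp hm hk hk1 (hT n hn) (hw n hn) h1 hzm
    obtain ⟨τ', -, hτ2⟩ := kt_conj hp hm hk hk1 (hT n' hn') (hw n' hn') h2 hzm
    have h3 : IsPrimitiveRoot ξ (p ^ n) := by
      rw [← hτ1]
      exact (hw n hn).map_of_injective τ.injective
    have h4 : IsPrimitiveRoot ξ (p ^ n') := by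
      rw [← hτ2]
      exact (hw n' hn').map_of_injective τ'.injective
    exact hne (Nat.pow_right_injective hp.two_le (h3.unique h4))
  · intro n hn
    by_cases hh : h = 0
    · rw [hh]
      exact dvd_zero _
    have hpk : 0 < p ^ (n - k) := pow_pos hp.pos _
    have hwne : w n ≠ 0 := (hw n hn).ne_zero (pow_pos hp.pos n).ne'
    have hmonic : (X ^ p ^ (n - k) - C (w n ^ p ^ (n - k)) : Qbar[X]).Monic :=
      Polynomial.monic_X_pow_sub_C _ hpk.ne'
    have hsep : (X ^ p ^ (n - k) - C (w n ^ p ^ (n - k)) : Qbar[X]).Separable :=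
      Polynomial.separable_X_pow_sub_C _ (by exact_mod_cast hpk.ne') (pow_ne_zero _ hwne)
    rw [(IsAlgClosed.splits _).eq_prod_roots_of_monic hmonic,
      Multiset.prod_X_sub_C_dvd_iff_le_roots hh,
      Multiset.le_iff_subset (Polynomial.nodup_roots hsep)]
    intro ξ hξ
    rw [Polynomial.mem_roots hmonic.ne_zero, Polynomial.IsRoot.def, Polynomial.eval_sub,
      Polynomial.eval_pow, Polynomial.eval_X, Polynomial.eval_C, sub_eq_zero] at hξ
    rw [Polynomial.mem_roots hh, Polynomial.IsRoot.def]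
    obtain ⟨τ, hτ1, hτ2⟩ := kt_conj hp hm hk hk1 (hT n hn) (hw n hn) hξ hzm
    rw [← hτ2, ← hτ τ hτ1, Polynomial.eval_map]
    refine (Polynomial.eval₂_at_apply (τ : Qbar →+* Qbar) (w n)).trans ?_
    rw [h0 n hn, map_zero]

end Pool.Agent.KT
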